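import Mathlib

/-!
# Steinhaus surfaces with non-constant radius: definitions

The surface is `Y h ε '' S = {(1 + ε h(x)) x : |x| = 1}` with `h` a smooth odd function.
-/

set_option autoImplicit false

open Set Filter Topology

namespace Pool.Agent.W555.ST

/-- Euclidean 3-space -/
abbrev E : Type := EuclideanSpace ℝ (Fin 3)

/-- the unit sphere -/
def S : Set E := {x | ‖x‖ = 1}

/-- the spherical distance -/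
noncomputable def ang (x y : E) : ℝ := InnerProductGeometry.angle x y

/-- the parametrisation of the surface -/
noncomputable def Y (h : E → ℝ) (ε : ℝ) (x : E) : E := (1 + ε * h x) • x

/-- the convex body -/
def Kb (h : E → ℝ) (ε : ℝ) : Set E := {y | ∃ x ∈ S, ∃ t ∈ Icc (0:ℝ) 1, y = t • Y h ε x}

/-- the intrinsic distance (as in the frozen statement S13551) -/
noncomputable def dd (K : Set E) (x y : E) : ENNReal :=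
  ⨅ (γ : ℝ → E)
    (_ : ContinuousOn γ (Set.Icc (0:ℝ) 1) ∧ γ 0 = x ∧ γ 1 = y ∧
          ∀ t ∈ Set.Icc (0:ℝ) 1, γ t ∈ frontier K),
    eVariationOn γ (Set.Icc (0:ℝ) 1)

/-- regularity of the perturbation -/
structure Reg (h : E → ℝ) (C : ℝ) : Prop where
  one_le : 1 ≤ C
  odd : ∀ x, h (-x) = -h x
  cont : Continuous h
  bdd : ∀ x, ‖x‖ ≤ 2 → |h x| ≤ C
  lip : ∀ x y, ‖x‖ ≤ 2 → ‖y‖ ≤ 2 → |h x - h y| ≤ C * ‖x - y‖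

/-- `D` is the intrinsic distance of the surface `Y h ε '' S`, transported to the sphere. -/
structure Met (h : E → ℝ) (C ε : ℝ) (D : E → E → ℝ) : Prop where
  self : ∀ x ∈ S, D x x = 0
  symm : ∀ x ∈ S, ∀ y ∈ S, D x y = D y x
  tri : ∀ x ∈ S, ∀ y ∈ S, ∀ z ∈ S, D x z ≤ D x y + D y z
  mid : ∀ x ∈ S, ∀ y ∈ S, ∀ s, 0 ≤ s → s ≤ D x y →
    ∃ z ∈ S, D x z = s ∧ D z y = D x y - s
  low : ∀ x ∈ S, ∀ y ∈ S, ‖x - y‖ * (1 + ε * h x - C * ε * ‖x - y‖) ≤ D x y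
  up : ∀ x ∈ S, ∀ y ∈ S,
    D x y ≤ ang x y * (1 + ε * h x + C * ε * ang x y + C * ε ^ 2)
  rot : ∀ R : E →ₗᵢ[ℝ] E, ∀ τ : ℝ, (∀ x ∈ S, ‖R x - x‖ ≤ τ) → ∀ x ∈ S, ∀ y ∈ S,
    D (R x) (R y) ≤ (1 + C * ε * τ) * D x y

/-- the integral of `h` over the quarter circle from `a` to `b` -/
noncomputable def KK (h : E → ℝ) (a b : E) : ℝ :=
  ∫ t in (0:ℝ)..(Real.pi / 2), h (Real.cos t • a + Real.sin t • b)

/-! ## The statements of the modules -/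

/-- Module 2a -/
def BodyStmt : Prop := ∀ h : E → ℝ, ContDiff ℝ (⊤ : ℕ∞) h → ∃ ε0 : ℝ, 0 < ε0 ∧
  ∀ ε : ℝ, 0 < ε → ε < ε0 → IsCompact (Kb h ε) ∧ Convex ℝ (Kb h ε) ∧
    (interior (Kb h ε)).Nonempty ∧ frontier (Kb h ε) = Y h ε '' S

/-- Module 2b -/
def MetStmt : Prop := ∀ h : E → ℝ, ContDiff ℝ (⊤ : ℕ∞) h → (∀ x, h (-x) = -h x) →
  ∃ C : ℝ, Reg h C ∧ ∃ ε0 : ℝ, 0 < ε0 ∧ ∀ ε : ℝ, 0 < ε → ε < ε0 →
    (∀ K : Set E, frontier K = Y h ε '' S →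
      (∀ x ∈ S, ∀ y ∈ S, dd K (Y h ε x) (Y h ε y) ≠ ⊤) ∧
      Met h C ε (fun x y => (dd K (Y h ε x) (Y h ε y)).toReal))

/-- Module 4: the asymptotic formula for the distance of nearly orthogonal points -/
def KEStmt : Prop := ∀ (h : E → ℝ) (C : ℝ), Reg h C → ∀ M : ℝ, ∃ B : ℝ, 0 < B ∧
  ∃ ε0 : ℝ, 0 < ε0 ∧ ∀ ε : ℝ, 0 < ε → ε < ε0 → ∀ D : E → E → ℝ, Met h C ε D →
    ∀ a ∈ S, ∀ b ∈ S, |inner ℝ a b| ≤ M * ε →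
      |D a b - (Real.pi / 2 - inner ℝ a b + ε * KK h a b)| ≤ B * (ε * √ε)

/-- Module 5: first variation -/
def VarStmt : Prop := ∀ (h : E → ℝ) (C : ℝ), Reg h C → ∀ M α : ℝ, 0 < α →
  ∃ ε0 : ℝ, 0 < ε0 ∧ ∃ δ : ℝ, 0 < δ ∧ ∀ ε : ℝ, 0 < ε → ε < ε0 → ∀ D : E → E → ℝ,
    Met h C ε D → ∀ p ∈ S, ∀ q ∈ S, ∀ y ∈ S, ∀ p1 ∈ S, Real.pi - M * ε ≤ D p q →
      D p y = D p q / 2 → D y q = D p q / 2 → 0 < ‖p1 - p‖ → ‖p1 - p‖ ≤ δ →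
        α * ‖p1 - p‖ ≤ inner ℝ (p1 - p) y → D p1 q < D p q

/-- the non-linearity condition on `h` -/
def NonLin (h : E → ℝ) : Prop := ∀ p ∈ S, ∀ v : E,
  ∃ e ∈ S, inner ℝ e p = 0 ∧ KK h p e + KK h e (-p) ≠ inner ℝ v e

/-- Module 6: the Steinhaus property -/
def SteinStmt : Prop := ∀ (h : E → ℝ) (C : ℝ), Reg h C → NonLin h → ∃ ε0 : ℝ, 0 < ε0 ∧
  ∀ ε : ℝ, 0 < ε → ε < ε0 → ∀ D : E → E → ℝ, Met h C ε D →
    (∀ p ∈ S, ∃ q ∈ S, (∀ z ∈ S, D p z ≤ D p q) ∧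
      (∀ q' ∈ S, (∀ z ∈ S, D p z ≤ D p q') → q' = q) ∧ ∀ z ∈ S, D q z ≤ D q p)

/-- the perturbation: `z³ + 2 Re (x + i y)⁵` -/
noncomputable def h0 (v : E) : ℝ :=
  (v 2) ^ 3 + 2 * ((v 0) ^ 5 - 10 * (v 0) ^ 3 * (v 1) ^ 2 + 5 * (v 0) * (v 1) ^ 4)

/-- Module 7a -/
def NonLinStmt : Prop := NonLin h0

/-- Module 7b: the radius is not constant -/
def RadStmt : Prop := ∀ C : ℝ, Reg h0 C → ∃ ε0 : ℝ, 0 < ε0 ∧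
  ∀ ε : ℝ, 0 < ε → ε < ε0 → ∀ D : E → E → ℝ, Met h0 C ε D →
    ∃ p1 ∈ S, ∃ p2 ∈ S, ∃ q2 ∈ S, ∀ q ∈ S, D p1 q < D p2 q2

end Pool.Agent.W555.ST
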