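import Pool.Agent.W555.ST.Stein
import Pool.Agent.W63.ST3
import Pool.Agent.W327.ST.Body
import Pool.Agent.W327.ST.Met

/-! # Steinhaus surfaces with non-constant radius exist -/

set_option autoImplicit false

open Set Filter Topology

namespace Pool.Agent.W555.ST

lemma h0_contDiff : ContDiff ℝ (⊤ : ℕ∞) h0 := by
  have hp : ∀ i : Fin 3, ContDiff ℝ (⊤ : ℕ∞) (fun v : E => v i) := fun i =>
    (EuclideanSpace.proj (𝕜 := ℝ) i).contDiff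
  unfold h0
  exact ((hp 2).pow 3).add (contDiff_const.mul ((((hp 0).pow 5).sub
    ((contDiff_const.mul ((hp 0).pow 3)).mul ((hp 1).pow 2))).add
    ((contDiff_const.mul (hp 0)).mul ((hp 1).pow 4))))

lemma h0_odd (x : E) : h0 (-x) = -h0 x := by
  unfold h0
  simp only [PiLp.neg_apply]
  ring

theorem final :
    ∃ (K : Set (EuclideanSpace ℝ (Fin 3)))
      (d : EuclideanSpace ℝ (Fin 3) → EuclideanSpace ℝ (Fin 3) → ENNReal),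
      Convex ℝ K ∧ IsCompact K ∧ (interior K).Nonempty ∧
      (∀ x y, d x y =
        ⨅ (γ : ℝ → EuclideanSpace ℝ (Fin 3))
          (_ : ContinuousOn γ (Set.Icc (0:ℝ) 1) ∧ γ 0 = x ∧ γ 1 = y ∧
                ∀ t ∈ Set.Icc (0:ℝ) 1, γ t ∈ frontier K),
          eVariationOn γ (Set.Icc (0:ℝ) 1)) ∧
      (∀ x ∈ frontier K, ∃! y, y ∈ frontier K ∧ ∀ z ∈ frontier K, d x z ≤ d x y) ∧
      (∀ x ∈ frontier K, ∀ y ∈ frontier K,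
        (∀ z ∈ frontier K, d x z ≤ d x y) → ∀ w ∈ frontier K, d y w ≤ d y x) ∧
      (∃ x ∈ frontier K, ∃ y ∈ frontier K,
        (⨆ z ∈ frontier K, d x z) ≠ (⨆ z ∈ frontier K, d y z)) := by
  obtain ⟨C, hr, e1, he1, hmet⟩ := W327.ST.met h0 h0_contDiff h0_odd
  obtain ⟨e2, he2, hbody⟩ := W327.ST.body h0 h0_contDiff
  obtain ⟨e3, he3, hst⟩ := stein h0 C hr W63.ST2.main
  obtain ⟨e4, he4, hrad⟩ := W63.ST3.main ke C hr
  set ε := min e1 (min e2 (min e3 e4)) / 2 with hε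
  have hpos : 0 < min e1 (min e2 (min e3 e4)) :=
    lt_min he1 (lt_min he2 (lt_min he3 he4))
  have hε0 : 0 < ε := by rw [hε]; linarith
  have hlt : ε < min e1 (min e2 (min e3 e4)) := by rw [hε]; linarith
  have l1 : ε < e1 := hlt.trans_le (min_le_left _ _)
  have l2 : ε < e2 := hlt.trans_le ((min_le_right _ _).trans (min_le_left _ _))
  have l3 : ε < e3 := hlt.trans_le ((min_le_right _ _).trans ((min_le_right _ _).trans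
    (min_le_left _ _)))
  have l4 : ε < e4 := hlt.trans_le ((min_le_right _ _).trans ((min_le_right _ _).trans
    (min_le_right _ _)))
  obtain ⟨hK1, hK2, hK3, hK4⟩ := hbody ε hε0 l2
  obtain ⟨hfin, m⟩ := hmet ε hε0 l1 (Kb h0 ε) hK4
  have hS := hst ε hε0 l3 _ m
  have hle : ∀ a ∈ S, ∀ b ∈ S, ∀ a' ∈ S, ∀ b' ∈ S,
      ((dd (Kb h0 ε) (Y h0 ε a) (Y h0 ε b)).toReal ≤
        (dd (Kb h0 ε) (Y h0 ε a') (Y h0 ε b')).toReal ↔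
      dd (Kb h0 ε) (Y h0 ε a) (Y h0 ε b) ≤ dd (Kb h0 ε) (Y h0 ε a') (Y h0 ε b')) :=
    fun a ha b hb a' ha' b' hb' => ENNReal.toReal_le_toReal (hfin a ha b hb) (hfin a' ha' b' hb')
  refine ⟨Kb h0 ε, dd (Kb h0 ε), hK2, hK1, hK3, fun x y => rfl, ?_, ?_, ?_⟩
  · rw [hK4]
    rintro _ ⟨p, hp, rfl⟩
    obtain ⟨q, hq, h1, h2, h3⟩ := hS p hp
    refine ⟨Y h0 ε q, ⟨⟨q, hq, rfl⟩, ?_⟩, ?_⟩
    · rintro _ ⟨z, hz, rfl⟩
      exact (hle p hp z hz p hp q hq).1 (h1 z hz)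
    · rintro _ ⟨⟨q', hq', rfl⟩, h4⟩
      rw [h2 q' hq' (fun z hz => (hle p hp z hz p hp q' hq').2 (h4 _ ⟨z, hz, rfl⟩))]
  · rw [hK4]
    rintro _ ⟨p, hp, rfl⟩ _ ⟨q', hq', rfl⟩ h4 _ ⟨w, hw, rfl⟩
    obtain ⟨q, hq, h1, h2, h3⟩ := hS p hp
    have : q' = q := h2 q' hq' (fun z hz => (hle p hp z hz p hp q' hq').2 (h4 _ ⟨z, hz, rfl⟩))
    subst this
    exact (hle q' hq w hw q' hq p hp).1 (h3 w hw)
  · rw [hK4]
    obtain ⟨p1, hp1, p2, hp2, q2, hq2, hlt'⟩ := hrad ε hε0 l4 _ m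
    refine ⟨_, ⟨p1, hp1, rfl⟩, _, ⟨p2, hp2, rfl⟩, ne_of_lt ?_⟩
    obtain ⟨q, hq, h1, h2, h3⟩ := hS p1 hp1
    have e1 : (⨆ z ∈ Y h0 ε '' S, dd (Kb h0 ε) (Y h0 ε p1) z) ≤
        dd (Kb h0 ε) (Y h0 ε p1) (Y h0 ε q) := by
      refine iSup₂_le ?_
      rintro _ ⟨z, hz, rfl⟩
      exact (hle p1 hp1 z hz p1 hp1 q hq).1 (h1 z hz)
    have e2 : dd (Kb h0 ε) (Y h0 ε p1) (Y h0 ε q) < dd (Kb h0 ε) (Y h0 ε p2) (Y h0 ε q2) :=
      (ENNReal.toReal_lt_toReal (hfin p1 hp1 q hq) (hfin p2 hp2 q2 hq2)).1 (hlt' q hq)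
    have e3 : dd (Kb h0 ε) (Y h0 ε p2) (Y h0 ε q2) ≤
        ⨆ z ∈ Y h0 ε '' S, dd (Kb h0 ε) (Y h0 ε p2) z :=
      le_iSup₂ (f := fun z (_ : z ∈ Y h0 ε '' S) => dd (Kb h0 ε) (Y h0 ε p2) z) _
        ⟨q2, hq2, rfl⟩
    exact e1.trans_lt (e2.trans_le e3)

end Pool.Agent.W555.ST
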