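import Pool.Agent.W555.ST.Defs

/-! # Crude consequences of `Met`: chains, comparison with the angle -/

set_option autoImplicit false

open Set Filter Topology

namespace Pool.Agent.W555.ST

/-! ## the angle -/

lemma inner_eq_cos {x y : E} (hx : x ∈ S) (hy : y ∈ S) : inner ℝ x y = Real.cos (ang x y) := by
  have hx' : ‖x‖ = 1 := hx
  have hy' : ‖y‖ = 1 := hy
  unfold ang
  rw [InnerProductGeometry.cos_angle, hx', hy']
  simp

lemma ang_nonneg (x y : E) : 0 ≤ ang x y := InnerProductGeometry.angle_nonneg x y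

lemma ang_le_pi (x y : E) : ang x y ≤ Real.pi := InnerProductGeometry.angle_le_pi x y

lemma ang_comm (x y : E) : ang x y = ang y x := InnerProductGeometry.angle_comm x y

lemma ang_tri (x y z : E) : ang x z ≤ ang x y + ang y z :=
  InnerProductGeometry.angle_le_angle_add_angle x y z

lemma ang_neg_left (x y : E) : ang (-x) y = Real.pi - ang x y :=
  InnerProductGeometry.angle_neg_left x y

lemma ang_neg_right (x y : E) : ang x (-y) = Real.pi - ang x y :=
  InnerProductGeometry.angle_neg_right x y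

lemma S_ne_zero {x : E} (hx : x ∈ S) : x ≠ 0 := by
  intro h
  have : ‖x‖ = 1 := hx
  rw [h, norm_zero] at this
  exact zero_ne_one this

lemma ang_self {x : E} (hx : x ∈ S) : ang x x = 0 :=
  InnerProductGeometry.angle_self (S_ne_zero hx)

lemma neg_mem_S {x : E} (hx : x ∈ S) : -x ∈ S := by
  have : ‖x‖ = 1 := hx
  show ‖-x‖ = 1
  rw [norm_neg]; exact this

lemma norm_sub_sq_S {x y : E} (hx : x ∈ S) (hy : y ∈ S) :
    ‖x - y‖ ^ 2 = 2 - 2 * inner ℝ x y := by
  have hx' : ‖x‖ = 1 := hx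
  have hy' : ‖y‖ = 1 := hy
  rw [norm_sub_sq_real, hx', hy']; ring

lemma norm_sub_eq {x y : E} (hx : x ∈ S) (hy : y ∈ S) :
    ‖x - y‖ = 2 * Real.sin (ang x y / 2) := by
  have h1 := norm_sub_sq_S hx hy
  rw [inner_eq_cos hx hy] at h1
  have h2 : Real.cos (ang x y) = 1 - 2 * Real.sin (ang x y / 2) ^ 2 := by
    have := Real.cos_two_mul (ang x y / 2)
    rw [mul_div_cancel₀ _ (two_ne_zero)] at this
    have h3 := Real.sin_sq_add_cos_sq (ang x y / 2)
    nlinarith
  have h4 : 0 ≤ Real.sin (ang x y / 2) :=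
    Real.sin_nonneg_of_nonneg_of_le_pi (by have := ang_nonneg x y; linarith)
      (by have := ang_le_pi x y; have := Real.pi_pos; linarith)
  rw [h2] at h1
  have h5 : ‖x - y‖ ^ 2 = (2 * Real.sin (ang x y / 2)) ^ 2 := by nlinarith
  exact (pow_left_inj₀ (norm_nonneg _) (by positivity) two_ne_zero).1 h5

lemma norm_sub_le_ang {x y : E} (hx : x ∈ S) (hy : y ∈ S) : ‖x - y‖ ≤ ang x y := by
  rw [norm_sub_eq hx hy]
  have := Real.sin_le (x := ang x y / 2) (by have := ang_nonneg x y; linarith)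
  linarith

lemma ang_le_mul {x y : E} (hx : x ∈ S) (hy : y ∈ S) : ang x y ≤ Real.pi / 2 * ‖x - y‖ := by
  rw [norm_sub_eq hx hy]
  have h0 := ang_nonneg x y
  have h1 := ang_le_pi x y
  have := Real.mul_le_sin (x := ang x y / 2) (by linarith) (by linarith)
  have hp := Real.pi_pos
  have h2 : Real.pi / 2 * (2 * Real.sin (ang x y / 2)) = Real.pi * Real.sin (ang x y / 2) := by ring
  rw [h2]
  have h3 : ang x y = Real.pi * (2 / Real.pi * (ang x y / 2)) := by field_simp
  rw [h3]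
  exact mul_le_mul_of_nonneg_left (by rw [← h3]; exact this) hp.le

lemma ang_le_mul' {x y : E} (hx : x ∈ S) (hy : y ∈ S) : ang x y ≤ 2 * ‖x - y‖ := by
  have h1 := ang_le_mul hx hy
  have h2 := Real.pi_lt_four
  have h3 := norm_nonneg (x - y)
  nlinarith

lemma ang_le_add_sq {x y : E} (hx : x ∈ S) (hy : y ∈ S) : ang x y ≤ ‖x - y‖ + ‖x - y‖ ^ 2 := by
  have h0 := ang_nonneg x y
  have h1 := ang_le_pi x y
  have h2 := ang_le_mul hx hy
  have h3 := norm_nonneg (x - y)
  have hp := Real.pi_lt_d2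
  have hp' := Real.pi_gt_three
  rcases le_or_gt (1:ℝ) ‖x - y‖ with h4 | h4
  · nlinarith
  · have h5 := norm_sub_eq hx hy
    rcases h0.eq_or_lt with h0' | h0'
    · rw [← h0']; positivity
    have h6 : ang x y / 2 ≤ 1 := by nlinarith
    have h7 := Real.sin_gt_sub_cube (x := ang x y / 2) (by linarith)
    have h8' : 0 ≤ (ang x y / 2) ^ 3 := by positivity
    have h8 : ang x y ≤ ‖x - y‖ + (ang x y / 2) ^ 3 / 2 := by linarith
    have h9 : (ang x y / 2) ≤ ‖x - y‖ := by nlinarith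
    have h10 : (ang x y / 2) ^ 3 ≤ ‖x - y‖ ^ 3 := pow_le_pow_left₀ (by linarith) h9 3
    have h11 : ‖x - y‖ ^ 3 ≤ ‖x - y‖ ^ 2 := pow_le_pow_of_le_one h3 h4.le (by norm_num)
    nlinarith [sq_nonneg ‖x - y‖]

/-! ## Chains -/

variable {h : E → ℝ} {C ε : ℝ} {D : E → E → ℝ}

lemma Met.nonneg (m : Met h C ε D) {x y : E} (hx : x ∈ S) (hy : y ∈ S) : 0 ≤ D x y := by
  have h1 := m.tri x hx y hy x hx
  rw [m.self x hx, m.symm y hy x hx] at h1
  linarith

lemma Met.chain (m : Met h C ε D) {x y : E} (hx : x ∈ S) (hy : y ∈ S) {s : ℝ} (hs : 0 ≤ s)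
    (N : ℕ) (hN : (N : ℝ) * s ≤ D x y) : ∃ z : ℕ → E, z 0 = x ∧
      (∀ i ≤ N, z i ∈ S ∧ D (z i) y = D x y - i * s ∧ D x (z i) = i * s) ∧
      ∀ i < N, D (z i) (z (i + 1)) = s := by
  have hf : ∀ z : E, ∃ w : E, z ∈ S → s ≤ D z y → w ∈ S ∧ D z w = s ∧ D w y = D z y - s := by
    intro z
    by_cases hz : z ∈ S ∧ s ≤ D z y
    · obtain ⟨w, hw, h1, h2⟩ := m.mid z hz.1 y hy s hs hz.2
      exact ⟨w, fun _ _ => ⟨hw, h1, h2⟩⟩
    · exact ⟨z, fun h1 h2 => absurd ⟨h1, h2⟩ hz⟩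
  choose f hf using hf
  have key : ∀ i ≤ N, f^[i] x ∈ S ∧ D (f^[i] x) y = D x y - i * s := by
    intro i
    induction i with
    | zero => intro _; simp [hx]
    | succ i ih =>
      intro hi
      obtain ⟨h1, h2⟩ := ih (by omega)
      rw [Function.iterate_succ_apply']
      have h3 : s ≤ D (f^[i] x) y := by
        rw [h2]
        have h4 : ((i + 1 : ℕ) : ℝ) ≤ N := by exact_mod_cast hi
        push_cast at h4
        nlinarith
      obtain ⟨h5, h6, h7⟩ := hf _ h1 h3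
      refine ⟨h5, ?_⟩
      rw [h7, h2]; push_cast; ring
  have key2 : ∀ i < N, D (f^[i] x) (f^[i + 1] x) = s := by
    intro i hi
    obtain ⟨h1, h2⟩ := key i hi.le
    rw [Function.iterate_succ_apply']
    have h3 : s ≤ D (f^[i] x) y := by
      rw [h2]
      have h4 : ((i + 1 : ℕ) : ℝ) ≤ N := by exact_mod_cast hi
      push_cast at h4
      nlinarith
    exact (hf _ h1 h3).2.1
  refine ⟨fun i => f^[i] x, rfl, fun i hi => ⟨(key i hi).1, (key i hi).2, ?_⟩, key2⟩
  have hup : D x (f^[i] x) ≤ i * s := by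
    clear hN
    revert hi
    induction i with
    | zero => intro _; simp [m.self x hx]
    | succ i ih =>
      intro hi
      have h1 := ih (by omega)
      have h2 := m.tri x hx _ (key i (by omega)).1 _ (key (i + 1) hi).1
      rw [key2 i (by omega)] at h2
      push_cast
      linarith
  have hlo := m.tri x hx _ (key i hi).1 y hy
  rw [(key i hi).2] at hlo
  linarith


lemma le_of_forall_div {a b c : ℝ} (H : ∀ n : ℕ, 1 ≤ n → a ≤ b + c / n) : a ≤ b := by
  have h1 : Tendsto (fun n : ℕ => b + c / (n : ℝ)) atTop (𝓝 (b + 0)) :=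
    tendsto_const_nhds.add (tendsto_const_div_atTop_nhds_zero_nat c)
  rw [add_zero] at h1
  exact ge_of_tendsto h1 (eventually_atTop.2 ⟨1, fun n hn => H n hn⟩)

lemma norm_sub_le_two {x y : E} (hx : x ∈ S) (hy : y ∈ S) : ‖x - y‖ ≤ 2 := by
  have h3 : ‖x‖ = 1 := hx
  have h4 : ‖y‖ = 1 := hy
  have := norm_sub_le x y
  linarith

lemma Reg.abs_le (hr : Reg h C) (hε : 0 < ε) {x : E} (hx : x ∈ S) :
    -(C * ε) ≤ ε * h x ∧ ε * h x ≤ C * ε := by
  have hx' : ‖x‖ = 1 := hx
  have hh := _root_.abs_le.1 (hr.bdd x (by linarith))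
  constructor <;> nlinarith

/-- crude lower bound for the chord -/
lemma Met.low_chord (m : Met h C ε D) (hr : Reg h C) (hε : 0 < ε)
    {x y : E} (hx : x ∈ S) (hy : y ∈ S) : ‖x - y‖ * (1 - 3 * (C * ε)) ≤ D x y := by
  have hC := hr.one_le
  have hCε : 0 < C * ε := by positivity
  have h1 := m.low _ hx _ hy
  have h2 := (hr.abs_le hε hx).1
  have h3 := norm_sub_le_two hx hy
  have h4 := norm_nonneg (x - y)
  refine le_trans (mul_le_mul_of_nonneg_left ?_ h4) h1
  nlinarith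

lemma Met.eq_of_zero (m : Met h C ε D) (hr : Reg h C) (hε : 0 < ε) (hε' : C * ε ≤ 1 / 8)
    {x y : E} (hx : x ∈ S) (hy : y ∈ S) (h0 : D x y ≤ 0) : x = y := by
  have h1 := m.low_chord hr hε hx hy
  have h4 := norm_nonneg (x - y)
  have h5 : ‖x - y‖ = 0 := by nlinarith
  exact sub_eq_zero.1 (norm_eq_zero.1 h5)

/-- crude lower bound -/
lemma Met.low_ang (m : Met h C ε D) (hr : Reg h C) (hε : 0 < ε) (hε' : C * ε ≤ 1 / 8)
    {x y : E} (hx : x ∈ S) (hy : y ∈ S) : (1 - C * ε) * ang x y ≤ D x y := by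
  have hC := hr.one_le
  have hCε : 0 < C * ε := by positivity
  set L := D x y with hL
  have hL0 : 0 ≤ L := m.nonneg hx hy
  -- for every n
  have key : ∀ n : ℕ, 1 ≤ n → (1 - C * ε) * ang x y ≤ L + 4 * L ^ 2 / n := by
    intro n hn
    have hn' : (1 : ℝ) ≤ n := by exact_mod_cast hn
    have hn0 : (0 : ℝ) < n := by linarith
    obtain ⟨z, hz0, hz1, hz2⟩ := m.chain hx hy (s := L / n) (by positivity) n
      (by rw [mul_div_cancel₀ _ hn0.ne'])
    -- each step
    have step : ∀ i < n, (1 - C * ε) * ang (z i) (z (i + 1)) ≤ L / n + 4 * (L / n) ^ 2 := by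
      intro i hi
      have hzi := (hz1 i hi.le).1
      have hzi' := (hz1 (i + 1) hi).1
      have h1 := m.low _ hzi _ hzi'
      have h1' := m.low_chord hr hε hzi hzi'
      rw [hz2 i hi] at h1 h1'
      have h2 := ang_le_add_sq hzi hzi'
      have hh := (hr.abs_le hε hzi).1
      set d := ‖z i - z (i + 1)‖ with hd
      have hd0 : 0 ≤ d := norm_nonneg _
      have hd2 : d ≤ 2 := norm_sub_le_two hzi hzi'
      have h3 : d * (1 - C * ε - C * ε * d) ≤ L / n :=
        le_trans (mul_le_mul_of_nonneg_left (by linarith) hd0) h1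
      have h5 : d ≤ 2 * (L / n) := by nlinarith
      have h6 : d ^ 2 ≤ (2 * (L / n)) ^ 2 := pow_le_pow_left₀ hd0 h5 2
      have h7 : (1 - C * ε) * ang (z i) (z (i + 1)) ≤ (1 - C * ε) * (d + d ^ 2) :=
        mul_le_mul_of_nonneg_left h2 (by linarith)
      nlinarith [sq_nonneg d]
    have ind : ∀ i ≤ n, (1 - C * ε) * ang x (z i) ≤ i * (L / n + 4 * (L / n) ^ 2) := by
      intro i
      induction i with
      | zero => intro _; rw [hz0, ang_self hx]; simp
      | succ i ih =>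
        intro hi
        have h1 := ih (by omega)
        have h2 := step i (by omega)
        have h3 := ang_tri x (z i) (z (i + 1))
        have h4 : (1 - C * ε) * ang x (z (i + 1)) ≤
            (1 - C * ε) * (ang x (z i) + ang (z i) (z (i + 1))) :=
          mul_le_mul_of_nonneg_left h3 (by linarith)
        push_cast
        linarith
    have h1 := ind n le_rfl
    have h2 : z n = y := by
      refine m.eq_of_zero hr hε hε' (hz1 n le_rfl).1 hy ?_
      rw [(hz1 n le_rfl).2.1, mul_div_cancel₀ _ hn0.ne']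
      simp [hL]
    rw [h2] at h1
    refine h1.trans (le_of_eq ?_)
    field_simp
  exact le_of_forall_div key

/-- crude upper bound -/
lemma Met.up_ang (m : Met h C ε D) (hr : Reg h C) (hε : 0 < ε) (hε' : C * ε ≤ 1 / 8)
    {x y : E} (hx : x ∈ S) (hy : y ∈ S) : D x y ≤ (1 + 6 * (C * ε)) * ang x y := by
  have hC := hr.one_le
  have hCε : 0 < C * ε := by positivity
  have h1 := m.up _ hx _ hy
  have h2 := (hr.abs_le hε hx).2
  have h3 := ang_nonneg x y
  have h4 := ang_le_pi x y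
  have h5 := Real.pi_lt_four
  have h6 : ε ≤ 1 := by nlinarith
  refine h1.trans ?_
  rw [mul_comm (1 + 6 * (C * ε))]
  refine mul_le_mul_of_nonneg_left ?_ h3
  have h7 : C * ε ^ 2 ≤ C * ε := by nlinarith
  nlinarith


/-! ## nearly antipodal pairs -/

lemma abs_inner_le {x y : E} (hx : x ∈ S) (hy : y ∈ S) :
    |inner ℝ x y| ≤ |Real.pi / 2 - ang x y| := by
  rw [inner_eq_cos hx hy, ← Real.sin_pi_div_two_sub]
  exact Real.abs_sin_le_abs

lemma Met.near_mid (m : Met h C ε D) (hr : Reg h C) (hε : 0 < ε) (hε' : C * ε ≤ 1 / 8) {M : ℝ}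
    {p q y : E} (hp : p ∈ S) (hq : q ∈ S) (hy : y ∈ S) (h1 : Real.pi - M * ε ≤ D p q)
    (h2 : D p y = D p q / 2) : |inner ℝ p y| ≤ (|M| + 20 * C) * ε ∧
      |Real.pi / 2 - ang p y| ≤ (|M| + 20 * C) * ε := by
  have hC := hr.one_le
  have hCε : 0 < C * ε := by positivity
  have a1 := m.up_ang hr hε hε' hp hq
  have a2 := m.up_ang hr hε hε' hp hy
  have a3 := m.low_ang hr hε hε' hp hy
  have b1 := ang_le_pi p q
  have b2 := ang_le_pi p y
  have b3 := ang_nonneg p y
  have b4 := ang_nonneg p q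
  have c1 := Real.pi_lt_d2
  have c2 := Real.pi_pos
  have hM := le_abs_self M
  have hM0 := abs_nonneg M
  have hMε : M * ε ≤ |M| * ε := mul_le_mul_of_nonneg_right hM hε.le
  have hMε0 : 0 ≤ |M| * ε := by positivity
  have key : |Real.pi / 2 - ang p y| ≤ (|M| + 20 * C) * ε := by
    rw [abs_le]
    constructor
    · -- ang ≤ π/2 + 13 X
      nlinarith
    · nlinarith
  exact ⟨(abs_inner_le hp hy).trans key, key⟩

lemma Met.near_anti (m : Met h C ε D) (hr : Reg h C) (hε : 0 < ε) (hε' : C * ε ≤ 1 / 8) {M : ℝ}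
    {p q : E} (hp : p ∈ S) (hq : q ∈ S) (h1 : Real.pi - M * ε ≤ D p q) :
    ‖p + q‖ ≤ (|M| + 20 * C) * ε := by
  have hC := hr.one_le
  have hCε : 0 < C * ε := by positivity
  have a1 := m.up_ang hr hε hε' hp hq
  have b1 := ang_le_pi p q
  have b4 := ang_nonneg p q
  have c1 := Real.pi_lt_d2
  have c2 := Real.pi_pos
  have hM := le_abs_self M
  have hMε : M * ε ≤ |M| * ε := mul_le_mul_of_nonneg_right hM hε.le
  have e1 : ‖p - -q‖ ≤ ang p (-q) := norm_sub_le_ang hp (neg_mem_S hq)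
  rw [ang_neg_right, sub_neg_eq_add] at e1
  nlinarith

lemma Met.le_norm (m : Met h C ε D) (hr : Reg h C) (hε : 0 < ε) (hε' : C * ε ≤ 1 / 8)
    {x y : E} (hx : x ∈ S) (hy : y ∈ S) : D x y ≤ 4 * ‖x - y‖ := by
  have a1 := m.up_ang hr hε hε' hx hy
  have a2 := ang_le_mul' hx hy
  have hC := hr.one_le
  have hCε : 0 < C * ε := by positivity
  have b3 := ang_nonneg x y
  nlinarith

lemma Met.abs_sub_le (m : Met h C ε D) (hr : Reg h C) (hε : 0 < ε) (hε' : C * ε ≤ 1 / 8)
    {x y x' y' : E} (hx : x ∈ S) (hy : y ∈ S) (hx' : x' ∈ S) (hy' : y' ∈ S) :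
    |D x y - D x' y'| ≤ 4 * (‖x - x'‖ + ‖y - y'‖) := by
  have h1 := m.tri x hx x' hx' y hy
  have h2 := m.tri x' hx' y' hy' y hy
  have h3 := m.tri x' hx' x hx y' hy'
  have h4 := m.tri x hx y hy y' hy'
  have e1 := m.le_norm hr hε hε' hx hx'
  have e2 := m.le_norm hr hε hε' hy hy'
  rw [m.symm x' hx' x hx] at h3
  rw [m.symm y' hy' y hy] at h2
  rw [abs_le]
  constructor <;> linarith

lemma isCompact_S : IsCompact S := by
  have : S = Metric.sphere (0 : E) 1 := by
    ext x; simp [S]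
  rw [this]
  exact isCompact_sphere _ _

lemma Met.continuousOn (m : Met h C ε D) (hr : Reg h C) (hε : 0 < ε) (hε' : C * ε ≤ 1 / 8) :
    ContinuousOn (fun z : E × E => D z.1 z.2) (S ×ˢ S) := by
  rintro ⟨x, y⟩ ⟨hx, hy⟩
  rw [ContinuousWithinAt, Metric.tendsto_nhdsWithin_nhds]
  intro η hη
  refine ⟨η / 10, by positivity, ?_⟩
  rintro ⟨x', y'⟩ ⟨hx', hy'⟩ hd
  rw [Real.dist_eq]
  have h1 := m.abs_sub_le hr hε hε' hx' hy' hx hy
  rw [Prod.dist_eq, max_lt_iff, dist_eq_norm, dist_eq_norm] at hd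
  obtain ⟨hd1, hd2⟩ := hd
  simp only at hd1 hd2 ⊢
  linarith

lemma Met.exists_far (m : Met h C ε D) (hr : Reg h C) (hε : 0 < ε) (hε' : C * ε ≤ 1 / 8)
    {p : E} (hp : p ∈ S) : ∃ q ∈ S, ∀ z ∈ S, D p z ≤ D p q := by
  have hc : ContinuousOn (fun z : E => D p z) S :=
    (m.continuousOn hr hε hε').comp (by fun_prop : Continuous fun z : E => (p, z)).continuousOn
      (fun z hz => ⟨hp, hz⟩)
  obtain ⟨q, hq, hmax⟩ := isCompact_S.exists_isMaxOn ⟨p, hp⟩ hc
  exact ⟨q, hq, fun z hz => hmax hz⟩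

end Pool.Agent.W555.ST
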