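import Pool.Agent.W555.ST.Crude

/-! # The asymptotic formula for the distance of nearly orthogonal points (`KEStmt`) -/

set_option autoImplicit false
set_option maxHeartbeats 1000000

open Set Filter Topology

namespace Pool.Agent.W555.ST

/-- great circle -/
noncomputable def gc (a w : E) (t : ℝ) : E := Real.cos t • a + Real.sin t • w

lemma gc_inner {a w : E} (ha : a ∈ S) (hw : w ∈ S) (h : inner ℝ a w = 0) (s t : ℝ) :
    inner ℝ (gc a w s) (gc a w t) = Real.cos (s - t) := by
  have ha' : ‖a‖ = 1 := ha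
  have hw' : ‖w‖ = 1 := hw
  have h' : inner ℝ w a = 0 := by rw [real_inner_comm]; exact h
  unfold gc
  simp only [inner_add_left, inner_add_right, inner_smul_left, inner_smul_right, h, h',
    RCLike.conj_to_real, real_inner_self_eq_norm_sq, ha', hw']
  rw [Real.cos_sub]; ring

lemma gc_mem {a w : E} (ha : a ∈ S) (hw : w ∈ S) (h : inner ℝ a w = 0) (t : ℝ) :
    gc a w t ∈ S := by
  have := gc_inner ha hw h t t
  rw [sub_self, Real.cos_zero, real_inner_self_eq_norm_sq] at this
  show ‖gc a w t‖ = 1
  have h0 := norm_nonneg (gc a w t)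
  nlinarith

lemma gc_ang {a w : E} (ha : a ∈ S) (hw : w ∈ S) (h : inner ℝ a w = 0) {s t : ℝ}
    (h1 : s ≤ t) (h2 : t - s ≤ Real.pi) : ang (gc a w s) (gc a w t) = t - s := by
  have e := gc_inner ha hw h s t
  rw [inner_eq_cos (gc_mem ha hw h s) (gc_mem ha hw h t)] at e
  have e2 : Real.cos (s - t) = Real.cos (t - s) := by rw [← Real.cos_neg]; ring_nf
  rw [e2] at e
  exact Real.injOn_cos ⟨ang_nonneg _ _, ang_le_pi _ _⟩ ⟨by linarith, h2⟩ e

lemma gc_sub_le {a w : E} (ha : a ∈ S) (hw : w ∈ S) (h : inner ℝ a w = 0) (s t : ℝ) :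
    ‖gc a w s - gc a w t‖ ≤ |s - t| := by
  have e := norm_sub_sq_S (gc_mem ha hw h s) (gc_mem ha hw h t)
  rw [gc_inner ha hw h] at e
  have e1 := Real.one_sub_sq_div_two_le_cos (x := s - t)
  have : ‖gc a w s - gc a w t‖ ^ 2 ≤ |s - t| ^ 2 := by
    rw [e, sq_abs]; linarith
  exact (pow_le_pow_iff_left₀ (norm_nonneg _) (abs_nonneg _) two_ne_zero).1 this

lemma gc_zero (a w : E) : gc a w 0 = a := by simp [gc]

lemma gc_cont (a w : E) : Continuous (gc a w) := by unfold gc; fun_prop

/-- the direction of the great circle from `a` to `b` -/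
noncomputable def dir (a b : E) : E :=
  (Real.sin (ang a b))⁻¹ • (b - Real.cos (ang a b) • a)

lemma dir_spec {a b : E} (hs : Real.sin (ang a b) ≠ 0) :
    gc a (dir a b) (ang a b) = b := by
  unfold gc dir
  rw [smul_smul, mul_inv_cancel₀ hs, one_smul]; abel

lemma dir_orth {a b : E} (ha : a ∈ S) (hb : b ∈ S) : inner ℝ a (dir a b) = 0 := by
  unfold dir
  have ha' : ‖a‖ = 1 := ha
  rw [inner_smul_right, inner_sub_right, inner_smul_right, inner_eq_cos ha hb,
    real_inner_self_eq_norm_sq, ha']
  simp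

lemma dir_mem {a b : E} (ha : a ∈ S) (hb : b ∈ S) (hs : Real.sin (ang a b) ≠ 0) :
    dir a b ∈ S := by
  have ha' : ‖a‖ = 1 := ha
  have hb' : ‖b‖ = 1 := hb
  have hs0 : 0 ≤ Real.sin (ang a b) :=
    Real.sin_nonneg_of_nonneg_of_le_pi (ang_nonneg _ _) (ang_le_pi _ _)
  have hs1 : 0 < Real.sin (ang a b) := lt_of_le_of_ne hs0 (Ne.symm hs)
  have e : ‖b - Real.cos (ang a b) • a‖ ^ 2 = Real.sin (ang a b) ^ 2 := by
    rw [norm_sub_sq_real, inner_smul_right, real_inner_comm, inner_eq_cos ha hb, norm_smul,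
      ha', hb', Real.norm_eq_abs, mul_one, sq_abs, Real.sin_sq]
    ring
  have e2 : ‖b - Real.cos (ang a b) • a‖ = Real.sin (ang a b) :=
    (pow_left_inj₀ (norm_nonneg _) hs0 two_ne_zero).1 e
  show ‖dir a b‖ = 1
  unfold dir
  rw [norm_smul, e2, Real.norm_eq_abs, abs_inv, abs_of_pos hs1, inv_mul_cancel₀ hs]

variable {h : E → ℝ} {C ε : ℝ} {D : E → E → ℝ}

/-- the integral of `h` along the great circle -/
noncomputable def FF (h : E → ℝ) (a w : E) (t : ℝ) : ℝ := ∫ s in (0:ℝ)..t, h (gc a w s)

lemma FF_step (hr : Reg h C) {a w : E} (ha : a ∈ S) (hw : w ∈ S) (ho : inner ℝ a w = 0)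
    (s t : ℝ) : |FF h a w t - FF h a w s - h (gc a w s) * (t - s)| ≤ C * |t - s| ^ 2 := by
  have hcont : Continuous fun u => h (gc a w u) := hr.cont.comp (gc_cont a w)
  have hint : ∀ x y : ℝ, IntervalIntegrable (fun u => h (gc a w u)) MeasureTheory.volume x y :=
    fun x y => hcont.intervalIntegrable x y
  have e1 : FF h a w t - FF h a w s = ∫ u in s..t, h (gc a w u) := by
    unfold FF
    rw [intervalIntegral.integral_interval_sub_left (hint _ _) (hint _ _)]
  have e2 : h (gc a w s) * (t - s) = ∫ u in s..t, h (gc a w s) := by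
    rw [intervalIntegral.integral_const]; simp [mul_comm]
  rw [e1, e2, ← intervalIntegral.integral_sub (hint _ _) (by simp)]
  have hC := hr.one_le
  have := intervalIntegral.norm_integral_le_of_norm_le_const (a := s) (b := t)
    (C := C * |t - s|) (f := fun u => h (gc a w u) - h (gc a w s)) ?_
  · rw [Real.norm_eq_abs] at this
    refine this.trans (le_of_eq ?_)
    ring
  · intro u hu
    rw [Real.norm_eq_abs]
    have h1 : ‖gc a w u‖ = 1 := gc_mem ha hw ho u
    have h2 : ‖gc a w s‖ = 1 := gc_mem ha hw ho s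
    refine (hr.lip _ _ (by linarith) (by linarith)).trans ?_
    refine mul_le_mul_of_nonneg_left ((gc_sub_le ha hw ho u s).trans ?_) (by linarith)
    rw [Set.mem_uIoc] at hu
    rcases hu with hu | hu
    · rw [abs_of_pos (by linarith), abs_of_pos (by linarith)]; linarith
    · rw [abs_of_nonpos (by linarith), abs_of_neg (by linarith)]; linarith

/-- upper bound -/
lemma Met.upper (m : Met h C ε D) (hr : Reg h C) (hε : 0 < ε) (hε' : C * ε ≤ 1 / 8)
    {a w : E} (ha : a ∈ S) (hw : w ∈ S) (ho : inner ℝ a w = 0) {l : ℝ} (hl : 0 ≤ l)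
    (hl' : l ≤ Real.pi) :
    D a (gc a w l) ≤ l + ε * FF h a w l + C * ε ^ 2 * l := by
  have hC := hr.one_le
  refine le_of_forall_div (c := 2 * l ^ 2) fun n hn => ?_
  have hn' : (1 : ℝ) ≤ n := by exact_mod_cast hn
  have hn0 : (0 : ℝ) < n := by linarith
  set δ := l / n with hδ
  have hδ0 : 0 ≤ δ := by positivity
  have hδl : δ ≤ l := div_le_self hl hn'
  have ind : ∀ i ≤ n, D a (gc a w (i * δ)) ≤
      i * δ + ε * FF h a w (i * δ) + C * ε ^ 2 * (i * δ) + i * (2 * δ ^ 2) := by
    intro i
    induction i with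
    | zero =>
      intro _
      simp [gc_zero, m.self a ha, FF]
    | succ i ih =>
      intro hi
      have h1 := ih (by omega)
      set t := (i : ℝ) * δ with ht
      have ht' : ((i + 1 : ℕ) : ℝ) * δ = t + δ := by push_cast; rw [ht]; ring
      rw [ht']
      have h2 := m.tri a ha _ (gc_mem ha hw ho t) _ (gc_mem ha hw ho (t + δ))
      have h3 := m.up _ (gc_mem ha hw ho t) _ (gc_mem ha hw ho (t + δ))
      rw [gc_ang ha hw ho (by linarith) (by linarith)] at h3
      have h4 := FF_step hr ha hw ho t (t + δ)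
      have e1 : t + δ - t = δ := by ring
      rw [e1] at h3 h4
      rw [abs_of_nonneg hδ0] at h4
      have h5 := (abs_le.1 h4).1
      have h6 : ε * (FF h a w (t + δ) - FF h a w t - h (gc a w t) * δ) ≥ -(C * ε * δ ^ 2) := by
        have := mul_le_mul_of_nonneg_left h5 hε.le
        linarith
      have h7 : C * ε * δ ^ 2 ≤ 1 / 8 * δ ^ 2 := mul_le_mul_of_nonneg_right hε' (by positivity)
      push_cast
      have h8 : δ * (1 + ε * h (gc a w t) + C * ε * δ + C * ε ^ 2) =
        δ + ε * (h (gc a w t) * δ) + C * ε * δ ^ 2 + C * ε ^ 2 * δ := by ring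
      rw [h8] at h3
      nlinarith [sq_nonneg δ]
  have h1 := ind n le_rfl
  have e1 : (n : ℝ) * δ = l := by rw [hδ]; field_simp
  rw [e1] at h1
  refine h1.trans (le_of_eq ?_)
  rw [hδ]; field_simp


/-- a point nearly between `a` and `b` is close to the great circle -/
lemma close_gc {a b z : E} (ha : a ∈ S) (hb : b ∈ S) (hz : z ∈ S) {η : ℝ} (hη : 0 ≤ η)
    (hs : 1 / 2 ≤ Real.sin (ang a b)) (hl : ang a b + η ≤ Real.pi)
    (h1 : ang a z + ang z b ≤ ang a b + η) :
    ‖z - gc a (dir a b) (ang a z)‖ ≤ 2 * √η := by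
  have hs0 : Real.sin (ang a b) ≠ 0 := by linarith
  set l := ang a b with hldef
  set t := ang a z with ht
  have ht0 : 0 ≤ t := ang_nonneg _ _
  have hw := dir_mem ha hb hs0
  have ho := dir_orth ha hb
  set w := dir a b with hwdef
  have hbe : gc a w l = b := dir_spec hs0
  have htp : t ≤ Real.pi := ang_le_pi _ _
  -- inner z b
  have e1 : inner ℝ z b = Real.cos l * Real.cos t + Real.sin l * inner ℝ z w := by
    have e := congrArg (fun v => inner ℝ z v) hbe
    simp only [gc, inner_add_right, inner_smul_right] at e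
    rw [← e, real_inner_comm, inner_eq_cos ha hz, ← ht]
  have e2 : Real.cos (l - t) - η ≤ inner ℝ z b := by
    rw [inner_eq_cos hz hb]
    have f1 : ang z b ≤ l - t + η := by linarith
    have f2 : Real.cos (l - t + η) ≤ Real.cos (ang z b) :=
      Real.cos_le_cos_of_nonneg_of_le_pi (ang_nonneg _ _) (by linarith) f1
    have f3 : Real.cos (l - t) - Real.cos (l - t + η) ≤ η := by
      have := Real.abs_cos_sub_cos_le (l - t) (l - t + η)
      have e : l - t - (l - t + η) = -η := by ring
      rw [e, abs_neg, abs_of_nonneg hη] at this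
      exact (le_abs_self _).trans this
    linarith
  rw [e1, Real.cos_sub] at e2
  have e3 : Real.sin l * (Real.sin t - inner ℝ z w) ≤ η := by linarith
  have e4 : Real.sin t - inner ℝ z w ≤ 2 * η := by
    rcases le_or_gt (Real.sin t - inner ℝ z w) 0 with h | h
    · linarith
    · nlinarith
  have hst0 : 0 ≤ Real.sin t := Real.sin_nonneg_of_nonneg_of_le_pi ht0 htp
  have hst1 : Real.sin t ≤ 1 := Real.sin_le_one t
  have e5 : 1 - 2 * η ≤ inner ℝ z (gc a w t) := by
    simp only [gc, inner_add_right, inner_smul_right]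
    rw [real_inner_comm, inner_eq_cos ha hz, ← ht]
    have := Real.sin_sq_add_cos_sq t
    nlinarith
  have e6 := norm_sub_sq_S hz (gc_mem ha hw ho t)
  have e7 : ‖z - gc a w t‖ ^ 2 ≤ (2 * √η) ^ 2 := by
    rw [e6, mul_pow, Real.sq_sqrt hη]; linarith
  exact (pow_le_pow_iff_left₀ (norm_nonneg _) (by positivity) two_ne_zero).1 e7

/-- lower bound -/
lemma Met.lower (m : Met h C ε D) (hr : Reg h C) (hε : 0 < ε) (hε' : C * ε ≤ 1 / 260)
    {a b : E} (ha : a ∈ S) (hb : b ∈ S) (hs : 1 / 2 ≤ Real.sin (ang a b))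
    (hl : ang a b ≤ 2) :
    ang a b + ε * FF h a (dir a b) (ang a b) - 64 * C * √(26 * C) * (ε * √ε) ≤ D a b := by
  have hC := hr.one_le
  have hX : 0 < C * ε := by positivity
  have hX8 : C * ε ≤ 1 / 8 := by linarith
  have hs0 : Real.sin (ang a b) ≠ 0 := by linarith
  have c1 := Real.pi_gt_three
  have c2 := Real.pi_lt_d2
  set η := 26 * C * ε with hη
  have hη0 : 0 ≤ η := by positivity
  have hηs : √η = √(26 * C) * √ε := by rw [hη, Real.sqrt_mul (by positivity)]
  have hη1 : η ≤ 1 / 10 := by rw [hη]; nlinarith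
  set L := D a b with hL
  have hL0 : 0 ≤ L := m.nonneg ha hb
  set l := ang a b with hldef
  have hl0 : 0 ≤ l := ang_nonneg _ _
  have hLup : L ≤ (1 + 6 * (C * ε)) * l := m.up_ang hr hε hX8 ha hb
  have hL4 : L ≤ 4 := by nlinarith
  set w := dir a b with hwdef
  have hw := dir_mem ha hb hs0
  have ho := dir_orth ha hb
  have hε1 : ε ≤ 1 := by nlinarith
  have main : ∀ n : ℕ, 1 ≤ n → l + ε * FF h a w l ≤
      (L + 16 * C * √(26 * C) * (ε * √ε) * L) + (40 * L ^ 2) / n := by
    intro n hn
    have hn' : (1 : ℝ) ≤ n := by exact_mod_cast hn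
    have hn0 : (0 : ℝ) < n := by linarith
    set s := L / n with hsdef
    have hs0' : 0 ≤ s := by positivity
    obtain ⟨z, hz0, hz1, hz2⟩ := m.chain ha hb (s := s) hs0' n
      (by rw [hsdef, mul_div_cancel₀ _ hn0.ne'])
    have ind : ∀ i ≤ n, ang a (z i) + ε * FF h a w (ang a (z i)) ≤
        i * s + 16 * C * √(26 * C) * (ε * √ε) * (i * s) + i * (40 * s ^ 2) := by
      intro i
      induction i with
      | zero => intro _; rw [hz0, ang_self ha]; simp [FF]
      | succ i ih =>
        intro hi
        have h1 := ih (by omega)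
        obtain ⟨z1, z2, z3⟩ := hz1 i (by omega)
        obtain ⟨y1, y2, y3⟩ := hz1 (i + 1) hi
        have hst := hz2 i (by omega)
        have l1 := m.low _ z1 _ y1
        have l2 := m.low_chord hr hε z1 y1
        rw [hst] at l1 l2
        have l3 := ang_le_add_sq z1 y1
        have l4 := ang_le_mul' z1 y1
        have hb1 := (hr.abs_le hε z1).1
        have hb2 := (hr.abs_le hε z1).2
        set d := ‖z i - z (i + 1)‖ with hd
        set al := ang (z i) (z (i + 1)) with hal
        have hd0 : 0 ≤ d := norm_nonneg _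
        have hal0 : 0 ≤ al := ang_nonneg _ _
        have hd2 : d ≤ 2 * s := by nlinarith
        have hdd : d ^ 2 ≤ 4 * s ^ 2 := by nlinarith
        -- (1 + ε h) al ≤ s + 12 s²
        have l5 : (1 + ε * h (z i)) * al ≤ s + 12 * s ^ 2 := by
          have : (1 + ε * h (z i)) * al ≤ (1 + ε * h (z i)) * (d + d ^ 2) :=
            mul_le_mul_of_nonneg_left l3 (by linarith)
          have k1 : d * (1 + ε * h (z i) - C * ε * d) =
            (1 + ε * h (z i)) * d - C * ε * d ^ 2 := by ring
          have k2 : (1 + ε * h (z i)) * d ^ 2 ≤ 2 * d ^ 2 :=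
            mul_le_mul_of_nonneg_right (by linarith) (sq_nonneg d)
          have k3 : C * ε * d ^ 2 ≤ 1 * d ^ 2 :=
            mul_le_mul_of_nonneg_right (by linarith) (sq_nonneg d)
          have k4 : (1 + ε * h (z i)) * (d + d ^ 2) =
            (1 + ε * h (z i)) * d + (1 + ε * h (z i)) * d ^ 2 := by ring
          linarith
        set t := ang a (z i) with ht
        set t' := ang a (z (i + 1)) with ht'
        have l6 : t' - t ≤ al := by
          have := ang_tri a (z i) (z (i + 1)); linarith
        have l6' : -(t' - t) ≤ al := by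
          have := ang_tri a (z (i + 1)) (z i)
          rw [ang_comm (z (i + 1)) (z i)] at this; linarith
        have l7 : |t' - t| ≤ 4 * s := by
          rw [abs_le]; constructor <;> linarith
        have l8 : (1 + ε * h (z i)) * (t' - t) ≤ s + 12 * s ^ 2 :=
          le_trans (mul_le_mul_of_nonneg_left l6 (by linarith)) l5
        -- closeness
        have l9 : ‖z i - gc a w t‖ ≤ 2 * √η := by
          refine close_gc ha hb z1 hη0 hs (by linarith) ?_
          have k1 := m.low_ang hr hε hX8 ha z1
          have k2 := m.low_ang hr hε hX8 z1 hb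
          rw [z3] at k1
          rw [z2] at k2
          rw [← ht] at k1 ⊢
          rw [← hldef]
          have k3 : (1 - C * ε) * (t + ang (z i) b) ≤ (1 + 6 * (C * ε)) * l := by
            have : (1 - C * ε) * (t + ang (z i) b) =
              (1 - C * ε) * t + (1 - C * ε) * ang (z i) b := by ring
            rw [this]; linarith
          have k4 : (1 + 6 * (C * ε)) * l ≤ (1 - C * ε) * (l + η) := by
            have k5 : (1 - C * ε) * (l + η) - (1 + 6 * (C * ε)) * l =
              (1 - C * ε) * η - 7 * (C * ε) * l := by ring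
            have k6 : 7 * (C * ε) * l ≤ 7 * (C * ε) * 2 :=
              mul_le_mul_of_nonneg_left hl (by positivity)
            have k7 : (1 - C * ε) * η ≥ 3 / 4 * η := mul_le_mul_of_nonneg_right (by linarith) hη0
            have k8 : η = 26 * (C * ε) := by rw [hη]; ring
            linarith
          have k9 : (1 - C * ε) * (t + ang (z i) b) ≤ (1 - C * ε) * (l + η) := k3.trans k4
          exact le_of_mul_le_mul_left k9 (by linarith)
        have l10 : |h (z i) - h (gc a w t)| ≤ C * (2 * √η) := by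
          refine (hr.lip _ _ ?_ ?_).trans (mul_le_mul_of_nonneg_left l9 (by linarith))
          · rw [show ‖z i‖ = 1 from z1]; norm_num
          · rw [show ‖gc a w t‖ = 1 from gc_mem ha hw ho t]; norm_num
        have l11 := (abs_le.1 (FF_step hr ha hw ho t t')).2
        have l12 : |t' - t| ^ 2 ≤ 16 * s ^ 2 := by
          have := pow_le_pow_left₀ (abs_nonneg (t' - t)) l7 2
          nlinarith
        -- combine
        have l13 : ε * (FF h a w t' - FF h a w t) ≤
            ε * (h (gc a w t) * (t' - t)) + 16 * (C * ε) * s ^ 2 := by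
          have k1 : FF h a w t' - FF h a w t ≤ h (gc a w t) * (t' - t) + C * (16 * s ^ 2) := by
            have := mul_le_mul_of_nonneg_left l12 (show 0 ≤ C by linarith)
            linarith
          have := mul_le_mul_of_nonneg_left k1 hε.le
          linarith
        have l14 : ε * (h (gc a w t) * (t' - t)) ≤
            ε * (h (z i) * (t' - t)) + ε * (C * (2 * √η) * (4 * s)) := by
          have k1 : (h (gc a w t) - h (z i)) * (t' - t) ≤ C * (2 * √η) * (4 * s) := by
            have k2 : |(h (gc a w t) - h (z i)) * (t' - t)| ≤ C * (2 * √η) * (4 * s) := by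
              rw [abs_mul, abs_sub_comm]
              exact mul_le_mul l10 l7 (abs_nonneg _) (by positivity)
            exact (le_abs_self _).trans k2
          have := mul_le_mul_of_nonneg_left k1 hε.le
          linarith
        have l15 : ε * (C * (2 * √η) * (4 * s)) ≤ 16 * C * √(26 * C) * (ε * √ε) * s := by
          rw [hηs]
          have : 0 ≤ C * √(26 * C) * (ε * √ε) * s := by positivity
          nlinarith
        have l16 : 16 * (C * ε) * s ^ 2 ≤ 16 * s ^ 2 := by nlinarith [sq_nonneg s]
        have l17 : (1 + ε * h (z i)) * (t' - t) = (t' - t) + ε * (h (z i) * (t' - t)) := by ring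
        have l18 : ε * (FF h a w t' - FF h a w t) = ε * FF h a w t' - ε * FF h a w t := by ring
        have l19 : 0 ≤ s ^ 2 := sq_nonneg s
        push_cast
        have l20 : ((i : ℝ) + 1) * s + 16 * C * √(26 * C) * (ε * √ε) * (((i : ℝ) + 1) * s) +
          ((i : ℝ) + 1) * (40 * s ^ 2) = ((i : ℝ) * s + 16 * C * √(26 * C) * (ε * √ε) * (i * s) +
          i * (40 * s ^ 2)) + s + 16 * C * √(26 * C) * (ε * √ε) * s + 40 * s ^ 2 := by ring
        rw [l20]
        linarith
    have h1 := ind n le_rfl
    have h2 : z n = b := by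
      refine m.eq_of_zero hr hε hX8 (hz1 n le_rfl).1 hb ?_
      rw [(hz1 n le_rfl).2.1, hsdef, mul_div_cancel₀ _ hn0.ne']
      simp [hL]
    rw [h2] at h1
    have e1 : (n : ℝ) * s = L := by rw [hsdef]; field_simp
    rw [e1] at h1
    refine h1.trans (le_of_eq ?_)
    rw [hsdef]; field_simp
  have h1 := le_of_forall_div main
  have h2 : 16 * C * √(26 * C) * (ε * √ε) * L ≤ 16 * C * √(26 * C) * (ε * √ε) * 4 :=
    mul_le_mul_of_nonneg_left hL4 (by positivity)
  linarith

end Pool.Agent.W555.ST
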