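import Pool.Agent.W555.ST.KE

/-! # `KEStmt` -/

set_option autoImplicit false
set_option maxHeartbeats 1000000

open Set Filter Topology

namespace Pool.Agent.W555.ST

variable {h : E → ℝ} {C ε : ℝ} {D : E → E → ℝ}

lemma KK_eq (h : E → ℝ) (a b : E) : KK h a b = FF h a b (Real.pi / 2) := rfl

lemma norm_gc_le {a b : E} (ha : a ∈ S) (hb : b ∈ S) (t : ℝ) : ‖gc a b t‖ ≤ 2 := by
  unfold gc
  refine (norm_add_le _ _).trans ?_
  rw [norm_smul, norm_smul, show ‖a‖ = 1 from ha, show ‖b‖ = 1 from hb, Real.norm_eq_abs,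
    Real.norm_eq_abs]
  have := Real.abs_cos_le_one t
  have := Real.abs_sin_le_one t
  linarith

lemma gc_integrable (hr : Reg h C) (a b : E) (x y : ℝ) :
    IntervalIntegrable (fun u => h (gc a b u)) MeasureTheory.volume x y :=
  (hr.cont.comp (gc_cont a b)).intervalIntegrable x y

/-- angle facts -/
lemma ang_facts {a b : E} (ha : a ∈ S) (hb : b ∈ S) (hu : |inner ℝ a b| ≤ 1 / 8) :
    |ang a b - Real.pi / 2| ≤ 2 * |inner ℝ a b| ∧ ang a b ≤ 2 ∧
    1 / 2 ≤ Real.sin (ang a b) ∧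
    |ang a b - (Real.pi / 2 - inner ℝ a b)| ≤ |inner ℝ a b| ^ 2 := by
  have c1 := Real.pi_gt_three
  have c2 := Real.pi_lt_d2
  set u := inner ℝ a b with hudef
  set l := ang a b with hl
  have hcos : Real.cos l = u := (inner_eq_cos ha hb).symm
  set v := Real.pi / 2 - l with hv
  have hsin : Real.sin v = u := by rw [hv, Real.sin_pi_div_two_sub, hcos]
  have hl0 : 0 ≤ l := ang_nonneg _ _
  have hl1 : l ≤ Real.pi := ang_le_pi _ _
  have hv1 : |v| ≤ Real.pi / 2 := by rw [abs_le]; constructor <;> linarith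
  have h1 := Real.mul_abs_le_abs_sin hv1
  rw [hsin] at h1
  have h2 : |v| ≤ 2 * |u| := by
    rw [div_mul_eq_mul_div, div_le_iff₀ Real.pi_pos] at h1
    have := abs_nonneg u
    nlinarith
  have h3 : |l - Real.pi / 2| = |v| := by rw [hv, abs_sub_comm]
  have hu0 := abs_nonneg u
  have hv0 := abs_nonneg v
  have h4 : |v| ≤ 1 / 4 := by linarith
  have h5 : l ≤ 2 := by
    have := (abs_le.1 h4).1
    linarith
  have h6 : 1 / 2 ≤ Real.sin l := by
    have e1 := Real.sin_sq_add_cos_sq l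
    rw [hcos] at e1
    have e2 : u ^ 2 ≤ 1 / 64 := by
      have : u ^ 2 = |u| ^ 2 := (sq_abs u).symm
      rw [this]; nlinarith
    have e3 : 0 ≤ Real.sin l := Real.sin_nonneg_of_nonneg_of_le_pi hl0 hl1
    nlinarith
  refine ⟨by rw [h3]; exact h2, h5, h6, ?_⟩
  have h7 : l - (Real.pi / 2 - u) = Real.sin v - v := by rw [hsin, hv]; ring
  rw [h7]
  have h8 := Real.sin_bound (x := v) (by linarith)
  have h9 : |Real.sin v - v| ≤ |Real.sin v - (v - v ^ 3 / 6)| + |v ^ 3 / 6| := by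
    have : Real.sin v - v = (Real.sin v - (v - v ^ 3 / 6)) - v ^ 3 / 6 := by ring
    rw [this]; exact abs_sub _ _
  have h10 : |v ^ 3 / 6| = |v| ^ 3 / 6 := by rw [abs_div, abs_pow]; norm_num
  rw [h10] at h9
  have h11 : |v| ^ 3 ≤ (2 * |u|) ^ 3 := pow_le_pow_left₀ hv0 h2 3
  have h12 : |v| ^ 5 ≤ |v| ^ 3 := pow_le_pow_of_le_one hv0 (by linarith) (by norm_num)
  have h13 : |v| ^ 3 ≥ 0 := by positivity
  have h14 : (2 * |u|) ^ 3 ≤ |u| ^ 2 := by
    have : (2 * |u|) ^ 3 = 8 * |u| * |u| ^ 2 := by ring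
    rw [this]
    have : 0 ≤ |u| ^ 2 := by positivity
    nlinarith
  linarith

lemma KK_sub_FF (hr : Reg h C) {a b : E} (ha : a ∈ S) (hb : b ∈ S)
    (hu : |inner ℝ a b| ≤ 1 / 8) :
    |FF h a (dir a b) (ang a b) - KK h a b| ≤ 6 * C * |inner ℝ a b| := by
  have hC := hr.one_le
  have c1 := Real.pi_gt_three
  have c2 := Real.pi_lt_d2
  obtain ⟨f1, f2, f3, f4⟩ := ang_facts ha hb hu
  have hs0 : Real.sin (ang a b) ≠ 0 := by linarith
  have hw := dir_mem ha hb hs0
  have ho := dir_orth ha hb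
  have hspec := dir_spec hs0
  set w := dir a b with hwdef
  set u := inner ℝ a b with hudef
  set l := ang a b with hl
  have hcos : Real.cos l = u := (inner_eq_cos ha hb).symm
  have hu0 := abs_nonneg u
  -- w - b
  have g1 : ‖w - b‖ ≤ 2 * |u| := by
    have e1 : inner ℝ w b = Real.sin l := by
      have e := congrArg (fun v => inner ℝ w v) hspec
      simp only [gc, inner_add_right, inner_smul_right] at e
      rw [← e, real_inner_comm, ho, real_inner_self_eq_norm_sq, show ‖w‖ = 1 from hw]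
      simp
    have e2 := norm_sub_sq_S hw hb
    rw [e1] at e2
    have e3 := Real.sin_sq_add_cos_sq l
    rw [hcos] at e3
    have e4 := Real.sin_le_one l
    have e5 : ‖w - b‖ ^ 2 ≤ (2 * |u|) ^ 2 := by
      rw [mul_pow, sq_abs]; nlinarith
    exact (pow_le_pow_iff_left₀ (norm_nonneg _) (by positivity) two_ne_zero).1 e5
  have g2 : |FF h a w l - FF h a w (Real.pi / 2)| ≤ C * |l - Real.pi / 2| := by
    unfold FF
    rw [intervalIntegral.integral_interval_sub_left (gc_integrable hr _ _ _ _)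
      (gc_integrable hr _ _ _ _)]
    have := intervalIntegral.norm_integral_le_of_norm_le_const (a := Real.pi / 2) (b := l)
      (C := C) (f := fun u => h (gc a w u)) (fun x _ => by
        rw [Real.norm_eq_abs]
        exact hr.bdd _ (norm_gc_le ha hw x))
    rwa [Real.norm_eq_abs] at this
  have g3 : |FF h a w (Real.pi / 2) - KK h a b| ≤ C * (2 * |u|) * (Real.pi / 2) := by
    rw [KK_eq]
    unfold FF
    rw [← intervalIntegral.integral_sub (gc_integrable hr _ _ _ _) (gc_integrable hr _ _ _ _)]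
    have := intervalIntegral.norm_integral_le_of_norm_le_const (a := 0) (b := Real.pi / 2)
      (C := C * (2 * |u|)) (f := fun t => h (gc a w t) - h (gc a b t)) (fun x _ => by
        rw [Real.norm_eq_abs]
        refine (hr.lip _ _ (norm_gc_le ha hw x) (norm_gc_le ha hb x)).trans ?_
        refine mul_le_mul_of_nonneg_left ?_ (by linarith)
        have e : gc a w x - gc a b x = Real.sin x • (w - b) := by unfold gc; module
        rw [e, norm_smul, Real.norm_eq_abs]
        have := Real.abs_sin_le_one x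
        have := norm_nonneg (w - b)
        nlinarith [abs_nonneg (Real.sin x)])
    rw [Real.norm_eq_abs] at this
    refine this.trans (le_of_eq ?_)
    rw [sub_zero, abs_of_pos (show (0:ℝ) < Real.pi / 2 by positivity)]
  have g4 : |FF h a w l - KK h a b| ≤ |FF h a w l - FF h a w (Real.pi / 2)| +
      |FF h a w (Real.pi / 2) - KK h a b| := abs_sub_le _ _ _
  have g5 : C * |l - Real.pi / 2| ≤ C * (2 * |u|) := mul_le_mul_of_nonneg_left f1 (by linarith)
  have g6 : C * (2 * |u|) * (Real.pi / 2) ≤ C * (2 * |u|) * 2 :=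
    mul_le_mul_of_nonneg_left (by linarith) (by positivity)
  linarith

theorem ke : KEStmt := by
  intro h C hr M
  have hC := hr.one_le
  have hM0 := abs_nonneg M
  refine ⟨|M| ^ 2 + 6 * C * |M| + 2 * C + 64 * C * √(26 * C) + 1, by positivity,
    1 / (260 * C + 8 * |M| + 1), by positivity, ?_⟩
  intro ε hε hε' D m a ha b hb hu
  rw [lt_div_iff₀ (by positivity)] at hε'
  have k0 : ε * (260 * C + 8 * |M| + 1) = 260 * (C * ε) + 8 * (|M| * ε) + ε := by ring
  rw [k0] at hε'
  have k1 : 0 < C * ε := by positivity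
  have k2 : 0 ≤ |M| * ε := by positivity
  have hX : C * ε ≤ 1 / 260 := by linarith
  have hM : M * ε ≤ |M| * ε := mul_le_mul_of_nonneg_right (le_abs_self M) hε.le
  have hu1 : |inner ℝ a b| ≤ |M| * ε := hu.trans hM
  have hu2 : |inner ℝ a b| ≤ 1 / 8 := by linarith
  have hε1 : ε ≤ 1 := by linarith
  obtain ⟨f1, f2, f3, f4⟩ := ang_facts ha hb hu2
  have hs0 : Real.sin (ang a b) ≠ 0 := by linarith
  have hw := dir_mem ha hb hs0
  have ho := dir_orth ha hb
  have g1 := m.lower hr hε hX ha hb f3 f2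
  have g2 := m.upper hr hε (by linarith) ha hw ho (ang_nonneg a b) (ang_le_pi a b)
  rw [dir_spec hs0] at g2
  have g3 := KK_sub_FF hr ha hb hu2
  set u := inner ℝ a b with hudef
  set l := ang a b
  set F := FF h a (dir a b) l
  set K := KK h a b
  have hu0 := abs_nonneg u
  have hl0 : 0 ≤ l := ang_nonneg _ _
  have e1 : |u| ^ 2 ≤ |M| ^ 2 * ε ^ 2 := by
    have := pow_le_pow_left₀ hu0 hu1 2
    rwa [mul_pow] at this
  have e2 : ε ^ 2 ≤ ε * √ε := by
    rw [sq]
    refine mul_le_mul_of_nonneg_left ?_ hε.le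
    rw [Real.le_sqrt hε.le hε.le]
    nlinarith
  have e3 : |ε * (F - K)| ≤ 6 * C * |M| * ε ^ 2 := by
    rw [abs_mul, abs_of_pos hε]
    have : 6 * C * |u| ≤ 6 * C * (|M| * ε) := mul_le_mul_of_nonneg_left hu1 (by positivity)
    have := mul_le_mul_of_nonneg_left (g3.trans this) hε.le
    refine this.trans (le_of_eq (by ring))
  have e3a := (abs_le.1 e3).1
  have e3b := (abs_le.1 e3).2
  have f4a := (abs_le.1 f4).1
  have f4b := (abs_le.1 f4).2
  have e4 : |M| ^ 2 * ε ^ 2 ≤ |M| ^ 2 * (ε * √ε) := mul_le_mul_of_nonneg_left e2 (by positivity)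
  have e5 : 6 * C * |M| * ε ^ 2 ≤ 6 * C * |M| * (ε * √ε) :=
    mul_le_mul_of_nonneg_left e2 (by positivity)
  have e6 : C * ε ^ 2 * l ≤ 2 * C * (ε * √ε) := by
    have : C * ε ^ 2 * l ≤ C * ε ^ 2 * 2 := mul_le_mul_of_nonneg_left f2 (by positivity)
    have : C * ε ^ 2 ≤ C * (ε * √ε) := mul_le_mul_of_nonneg_left e2 (by linarith)
    linarith
  have e7 : 0 < ε * √ε := by positivity
  have e8 : (|M| ^ 2 + 6 * C * |M| + 2 * C + 64 * C * √(26 * C) + 1) * (ε * √ε) =
    |M| ^ 2 * (ε * √ε) + 6 * C * |M| * (ε * √ε) + 2 * C * (ε * √ε) +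
      64 * C * √(26 * C) * (ε * √ε) + ε * √ε := by ring
  have e9 : 0 ≤ 64 * C * √(26 * C) * (ε * √ε) := by positivity
  have e10 : 0 ≤ 2 * C * (ε * √ε) := by positivity
  have e11 : ε * (F - K) = ε * F - ε * K := by ring
  rw [e8, abs_le]
  constructor <;> linarith

end Pool.Agent.W555.ST
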