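import Pool.Agent.W555.ST.Crude

/-! # First variation (`VarStmt`) -/

set_option autoImplicit false

open Set Filter Topology

namespace Pool.Agent.W555.ST

/-! ## the rotation taking `p` to `p1` -/

/-- the rotation in the plane of `p`, `p1` which takes `p` to `p1` -/
noncomputable def rotL (p p1 : E) : E →ₗ[ℝ] E where
  toFun x := x - (inner ℝ (p + p1) x / (1 + inner ℝ p p1)) • (p + p1) + (2 * inner ℝ p x) • p1
  map_add' x y := by
    simp only [inner_add_right]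
    module
  map_smul' c x := by
    simp only [inner_smul_right, RingHom.id_apply]
    module

lemma rotL_apply (p p1 x : E) : rotL p p1 x =
    x - (inner ℝ (p + p1) x / (1 + inner ℝ p p1)) • (p + p1) + (2 * inner ℝ p x) • p1 := rfl

lemma inner_self_S {x : E} (hx : x ∈ S) : inner ℝ x x = (1:ℝ) := by
  rw [real_inner_self_eq_norm_sq, show ‖x‖ = 1 from hx]; norm_num

lemma one_add_inner {p p1 : E} (hp : p ∈ S) (hp1 : p1 ∈ S) :
    1 + inner ℝ p p1 = 2 - ‖p1 - p‖ ^ 2 / 2 := by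
  rw [norm_sub_sq_S hp1 hp, real_inner_comm]; ring

lemma rotL_norm {p p1 : E} (hp : p ∈ S) (hp1 : p1 ∈ S) (h1 : ‖p1 - p‖ ≤ 1) (x : E) :
    ‖rotL p p1 x‖ = ‖x‖ := by
  have hc := one_add_inner hp hp1
  have hc' : 0 < 1 + inner ℝ p p1 := by
    rw [hc]; have := norm_nonneg (p1 - p); nlinarith
  have h2 : ‖rotL p p1 x‖ ^ 2 = ‖x‖ ^ 2 := by
    rw [← real_inner_self_eq_norm_sq, ← real_inner_self_eq_norm_sq, rotL_apply]
    simp only [inner_add_left, inner_add_right, inner_sub_left, inner_sub_right, inner_smul_left,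
      inner_smul_right, RCLike.conj_to_real]
    have e1 := inner_self_S hp
    have e2 := inner_self_S hp1
    rw [real_inner_comm p p1, real_inner_comm p x, real_inner_comm p1 x, e1, e2]
    set c := inner ℝ p p1 with hcdef
    set a := inner ℝ x p
    set b := inner ℝ x p1
    field_simp
    ring
  exact (pow_left_inj₀ (norm_nonneg _) (norm_nonneg _) two_ne_zero).1 h2

/-- the rotation as an isometry -/
noncomputable def rotI {p p1 : E} (hp : p ∈ S) (hp1 : p1 ∈ S) (h1 : ‖p1 - p‖ ≤ 1) :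
    E →ₗᵢ[ℝ] E where
  toLinearMap := rotL p p1
  norm_map' := rotL_norm hp hp1 h1

lemma rotI_apply {p p1 : E} (hp : p ∈ S) (hp1 : p1 ∈ S) (h1 : ‖p1 - p‖ ≤ 1) (x : E) :
    rotI hp hp1 h1 x = x - (inner ℝ (p + p1) x / (1 + inner ℝ p p1)) • (p + p1)
      + (2 * inner ℝ p x) • p1 := rfl

lemma rotI_self {p p1 : E} (hp : p ∈ S) (hp1 : p1 ∈ S) (h1 : ‖p1 - p‖ ≤ 1) :
    rotI hp hp1 h1 p = p1 := by
  have hc := one_add_inner hp hp1
  have hc' : 0 < 1 + inner ℝ p p1 := by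
    rw [hc]; have := norm_nonneg (p1 - p); nlinarith
  rw [rotI_apply, inner_add_left, inner_self_S hp, real_inner_comm p p1, div_self hc'.ne']
  module

lemma rotI_sub {p p1 : E} (hp : p ∈ S) (hp1 : p1 ∈ S) (h1 : ‖p1 - p‖ ≤ 1) (x : E) :
    rotI hp hp1 h1 x - x =
      (2 * inner ℝ p x * (1 - 2 / (1 + inner ℝ p p1))
        - 2 * inner ℝ (p1 - p) x / (1 + inner ℝ p p1)) • p
      + (2 * inner ℝ p x - (2 * inner ℝ p x + inner ℝ (p1 - p) x) / (1 + inner ℝ p p1))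
        • (p1 - p) := by
  have hc := one_add_inner hp hp1
  have hc' : 0 < 1 + inner ℝ p p1 := by
    rw [hc]; have := norm_nonneg (p1 - p); nlinarith
  rw [rotI_apply]
  have e : inner ℝ (p + p1) x = 2 * inner ℝ p x + inner ℝ (p1 - p) x := by
    rw [inner_add_left, inner_sub_left]; ring
  rw [e]
  set c := 1 + inner ℝ p p1
  set a := inner ℝ p x
  set β := inner ℝ (p1 - p) x
  have : p1 = p + (p1 - p) := by abel
  set η := p1 - p
  rw [this]
  match_scalars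
  · ring
  · field_simp; ring
  · field_simp; ring

lemma abs_inner_le_one {x y : E} (hx : x ∈ S) (hy : y ∈ S) : |inner ℝ x y| ≤ 1 := by
  have := abs_real_inner_le_norm x y
  rw [show ‖x‖ = 1 from hx, show ‖y‖ = 1 from hy] at this
  simpa using this

lemma abs_inner_le_norm' (x : E) {y : E} (hy : y ∈ S) : |inner ℝ x y| ≤ ‖x‖ := by
  have := abs_real_inner_le_norm x y
  rw [show ‖y‖ = 1 from hy] at this
  simpa using this

lemma coef_bounds {τ c : ℝ} (h0 : 0 ≤ τ) (h1 : τ ≤ 1) (hc : c = 2 - τ ^ 2 / 2) :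
    0 < c ∧ |1 - 2 / c| ≤ τ ^ 2 / 3 ∧ |1 - 1 / c| ≤ 1 / 2 ∧ 1 / c ≤ 2 / 3 := by
  have hc1 : 3 / 2 ≤ c := by rw [hc]; nlinarith
  have hc2 : c ≤ 2 := by rw [hc]; nlinarith
  have hc0 : 0 < c := by linarith
  refine ⟨hc0, ?_, ?_, ?_⟩
  · have : 1 - 2 / c = -((τ ^ 2 / 2) / c) := by
      field_simp; rw [hc]; ring
    rw [this, abs_neg, abs_of_nonneg (by positivity), div_le_iff₀ hc0]
    nlinarith [sq_nonneg τ]
  · have h3 : 1 / c ≤ 2 / 3 := by rw [div_le_div_iff₀ hc0 (by norm_num)]; linarith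
    have h4 : 1 / 2 ≤ 1 / c := by rw [div_le_div_iff₀ (by norm_num) hc0]; linarith
    rw [abs_le]; constructor <;> linarith
  · rw [div_le_div_iff₀ hc0 (by norm_num)]; linarith

/-- the main estimate for the rotation -/
lemma rotI_est {p p1 : E} (hp : p ∈ S) (hp1 : p1 ∈ S) (h1 : ‖p1 - p‖ ≤ 1) {x y : E}
    (hx : x ∈ S) (s : ℝ) (hs : s = inner ℝ (p1 - p) y) :
    ‖rotI hp hp1 h1 x - (x - s • p)‖ ≤
      ‖p1 - p‖ * (3 * |inner ℝ p x| + 4 * ‖p1 - p‖ + ‖x - y‖) := by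
  have e0 : rotI hp hp1 h1 x - (x - s • p) = (rotI hp hp1 h1 x - x) + s • p := by abel
  rw [e0, rotI_sub]
  obtain ⟨hc0, hc1, hc2, hc3⟩ := coef_bounds (norm_nonneg _) h1 (one_add_inner hp hp1)
  set c := 1 + inner ℝ p p1
  set a := inner ℝ p x with ha
  set β := inner ℝ (p1 - p) x with hβ
  set τ := ‖p1 - p‖ with hτ
  have hτ0 : 0 ≤ τ := norm_nonneg _
  have hβ1 : |β| ≤ τ := abs_inner_le_norm' _ hx
  have ha1 : |a| ≤ 1 := abs_inner_le_one hp hx
  have ha0 : 0 ≤ |a| := abs_nonneg _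
  have hsβ : |s - β| ≤ τ * ‖x - y‖ := by
    rw [hs, hβ, ← inner_sub_right, ← norm_neg (x - y), neg_sub]
    exact abs_real_inner_le_norm _ _
  have hxy : 0 ≤ ‖x - y‖ := norm_nonneg _
  have e1 : (2 * a * (1 - 2 / c) - 2 * β / c) • p + (2 * a - (2 * a + β) / c) • (p1 - p) + s • p
      = (2 * a * (1 - 2 / c) + β * (1 - 2 / c) + (s - β)) • p
        + (2 * a * (1 - 1 / c) - β * (1 / c)) • (p1 - p) := by
    match_scalars <;> ring
  rw [e1]
  refine (norm_add_le _ _).trans ?_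
  rw [norm_smul, norm_smul, show ‖p‖ = 1 from hp, Real.norm_eq_abs, Real.norm_eq_abs, ← hτ]
  have b1 : |2 * a * (1 - 2 / c) + β * (1 - 2 / c) + (s - β)| ≤
      2 * |a| * (τ ^ 2 / 3) + τ * (τ ^ 2 / 3) + τ * ‖x - y‖ := by
    refine (abs_add_le _ _).trans (add_le_add ((abs_add_le _ _).trans (add_le_add ?_ ?_)) hsβ)
    · rw [abs_mul, abs_mul, abs_two]
      exact mul_le_mul_of_nonneg_left hc1 (by positivity)
    · rw [abs_mul]
      exact mul_le_mul hβ1 hc1 (abs_nonneg _) hτ0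
  have b2 : |2 * a * (1 - 1 / c) - β * (1 / c)| ≤ 2 * |a| * (1 / 2) + τ * (2 / 3) := by
    refine (abs_sub _ _).trans (add_le_add ?_ ?_)
    · rw [abs_mul, abs_mul, abs_two]
      exact mul_le_mul_of_nonneg_left hc2 (by positivity)
    · rw [abs_mul, abs_of_pos (show (0:ℝ) < 1 / c by positivity)]
      exact mul_le_mul hβ1 hc3 (by positivity) hτ0
  have b3 : 2 * |a| * (τ ^ 2 / 3) ≤ τ * τ := by nlinarith [sq_nonneg τ]
  have b4 : τ * (τ ^ 2 / 3) ≤ τ * τ := by nlinarith [sq_nonneg τ]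
  nlinarith [mul_nonneg hτ0 ha0, mul_nonneg hτ0 hxy, mul_nonneg hτ0 hτ0]

lemma rotI_le {p p1 : E} (hp : p ∈ S) (hp1 : p1 ∈ S) (h1 : ‖p1 - p‖ ≤ 1) {x : E}
    (hx : x ∈ S) : ‖rotI hp hp1 h1 x - x‖ ≤ 6 * ‖p1 - p‖ := by
  rw [rotI_sub]
  obtain ⟨hc0, hc1, hc2, hc3⟩ := coef_bounds (norm_nonneg _) h1 (one_add_inner hp hp1)
  set c := 1 + inner ℝ p p1
  set a := inner ℝ p x with ha
  set β := inner ℝ (p1 - p) x with hβ
  set τ := ‖p1 - p‖ with hτ
  have hτ0 : 0 ≤ τ := norm_nonneg _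
  have hβ1 : |β| ≤ τ := abs_inner_le_norm' _ hx
  have ha1 : |a| ≤ 1 := abs_inner_le_one hp hx
  have ha0 : 0 ≤ |a| := abs_nonneg _
  refine (norm_add_le _ _).trans ?_
  rw [norm_smul, norm_smul, show ‖p‖ = 1 from hp, Real.norm_eq_abs, Real.norm_eq_abs, ← hτ]
  have b1 : |2 * a * (1 - 2 / c) - 2 * β / c| ≤ 2 * |a| * (τ ^ 2 / 3) + 2 * τ * (2 / 3) := by
    refine (abs_sub _ _).trans (add_le_add ?_ ?_)
    · rw [abs_mul, abs_mul, abs_two]
      exact mul_le_mul_of_nonneg_left hc1 (by positivity)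
    · rw [abs_div, abs_mul, abs_two, abs_of_pos hc0, div_eq_mul_one_div]
      exact mul_le_mul (by linarith) hc3 (by positivity) (by positivity)
  have e2 : 2 * a - (2 * a + β) / c = 2 * a * (1 - 1 / c) - β * (1 / c) := by ring
  have b2 : |2 * a - (2 * a + β) / c| ≤ 2 * |a| * (1 / 2) + τ * (2 / 3) := by
    rw [e2]
    refine (abs_sub _ _).trans (add_le_add ?_ ?_)
    · rw [abs_mul, abs_mul, abs_two]
      exact mul_le_mul_of_nonneg_left hc2 (by positivity)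
    · rw [abs_mul, abs_of_pos (show (0:ℝ) < 1 / c by positivity)]
      exact mul_le_mul hβ1 hc3 (by positivity) hτ0
  have b3 : 2 * |a| * (τ ^ 2 / 3) ≤ τ := by nlinarith [sq_nonneg τ]
  have b5 : (2 * |a| * (1 / 2) + τ * (2 / 3)) ≤ 2 := by linarith
  nlinarith [mul_nonneg hτ0 ha0, mul_nonneg hτ0 hτ0]


set_option maxHeartbeats 2000000 in
/-- a step of the minimizing path which goes in the direction `-p` -/
lemma exists_step {h : E → ℝ} {C ε : ℝ} {D : E → E → ℝ} (m : Met h C ε D) (hr : Reg h C)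
    (hε : 0 < ε) (hε' : C * ε ≤ 1 / 8) {M : ℝ}
    {p q y : E} (hp : p ∈ S) (hq : q ∈ S) (hy : y ∈ S) (h1 : Real.pi - M * ε ≤ D p q)
    (h2 : D p y = D p q / 2) (h3 : D y q = D p q / 2) {κ s : ℝ} (hκ : 0 < κ) (hκ' : κ ≤ 1 / 4)
    (hs : 0 < s) (hs' : s ≤ κ / 2) (hM : (|M| + 20 * C) * ε ≤ κ / 2) :
    ∃ b ∈ S, ∃ b' ∈ S, D p b + D b' q = D p q - s ∧ ‖b - y‖ ≤ 2 * κ ∧
      ‖b' - (b - s • p)‖ ^ 2 ≤ s ^ 2 * (17 * (C * ε) +
        2 * (4 * ((|M| + 20 * C) * ε) / κ + 2 * κ ^ 2)) := by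
  have hC := hr.one_le
  have hX : 0 < C * ε := by positivity
  set M1 := (|M| + 20 * C) * ε with hM1
  have hM10 : 0 ≤ M1 := by positivity
  have c1 := Real.pi_lt_d2
  have c2 := Real.pi_gt_three
  have hM' := le_abs_self M
  have hMε : M * ε ≤ |M| * ε := mul_le_mul_of_nonneg_right hM' hε.le
  have hMM : M * ε ≤ M1 := by
    have : M1 = |M| * ε + 20 * (C * ε) := by rw [hM1]; ring
    linarith
  -- number of steps
  set N := ⌊κ / s⌋₊ with hN
  have hN1 : (N : ℝ) * s ≤ κ := by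
    have := Nat.floor_le (show 0 ≤ κ / s by positivity)
    rwa [le_div_iff₀ hs] at this
  have hN2 : κ / 2 ≤ (N : ℝ) * s := by
    have := Nat.lt_floor_add_one (κ / s)
    rw [div_lt_iff₀ hs] at this
    nlinarith
  have hN0 : 0 < N := by
    rcases Nat.eq_zero_or_pos N with h0 | h0
    · rw [h0] at hN2; simp at hN2; linarith
    · exact h0
  have hyq : κ ≤ D y q := by rw [h3]; linarith
  obtain ⟨z, hz0, hz1, hz2⟩ := m.chain hy hq (s := s) hs.le N (hN1.trans hyq)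
  have hpz : ∀ i ≤ N, D p (z i) = D p y + i * s := by
    intro i hi
    obtain ⟨e1, e2, e3⟩ := hz1 i hi
    have t1 := m.tri p hp y hy (z i) e1
    have t2 := m.tri p hp (z i) e1 q hq
    rw [e3] at t1
    rw [e2, h3] at t2
    linarith
  have hzy : ∀ i ≤ N, ‖z i - y‖ ≤ 2 * κ := by
    intro i hi
    obtain ⟨e1, e2, e3⟩ := hz1 i hi
    have t1 := m.low_chord hr hε hy e1
    rw [e3, norm_sub_rev] at t1
    have t2 : (i : ℝ) * s ≤ N * s := mul_le_mul_of_nonneg_right (by exact_mod_cast hi) hs.le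
    have t3 := norm_nonneg (z i - y)
    nlinarith
  -- heights
  have hf0 : -M1 ≤ inner ℝ (z 0) p := by
    rw [hz0, real_inner_comm]
    exact (abs_le.1 (m.near_mid hr hε hε' hp hq hy h1 h2).1).1
  have hfN : inner ℝ (z N) p ≤ -(N * s) + M1 + κ ^ 3 := by
    have e1 := (hz1 N le_rfl).1
    rw [real_inner_comm, inner_eq_cos hp e1]
    have a1 := m.up_ang hr hε hε' hp e1
    have a2 := m.up_ang hr hε hε' hp hq
    have b1 := ang_le_pi p (z N)
    have b3 := ang_nonneg p (z N)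
    rw [hpz N le_rfl, h2] at a1
    have u1 : Real.pi / 2 + (N * s - M1) ≤ ang p (z N) := by
      have w1 : 6 * (C * ε) * ang p (z N) ≤ 6 * (C * ε) * 3.15 :=
        mul_le_mul_of_nonneg_left (by linarith) (by positivity)
      have w2 : M1 = |M| * ε + 20 * (C * ε) := by rw [hM1]; ring
      have w3 : (1 + 6 * (C * ε)) * ang p (z N) =
        ang p (z N) + 6 * (C * ε) * ang p (z N) := by ring
      have w4 : 0 ≤ |M| * ε := by positivity
      linarith
    have u0 : 0 ≤ N * s - M1 := by linarith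
    have u2 : Real.cos (ang p (z N)) ≤ Real.cos (Real.pi / 2 + (N * s - M1)) :=
      Real.cos_le_cos_of_nonneg_of_le_pi (by linarith) b1 u1
    rw [add_comm, Real.cos_add_pi_div_two] at u2
    have u3 : N * s - M1 - (N * s - M1) ^ 3 / 6 ≤ Real.sin (N * s - M1) := by
      rcases u0.eq_or_lt with u | u
      · rw [← u]; simp
      · exact (Real.sin_gt_sub_cube u).le
    have u4 : (N * s - M1) ^ 3 ≤ κ ^ 3 := pow_le_pow_left₀ u0 (by linarith) 3
    have u5 : 0 ≤ (N * s - M1) ^ 3 := by positivity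
    linarith
  -- pigeonhole
  have hex : ∃ j < N, s - (2 * M1 + κ ^ 3) / N ≤ inner ℝ (z j) p - inner ℝ (z (j + 1)) p := by
    by_contra hcon
    push Not at hcon
    have hsum : ∀ i ≤ N, inner ℝ (z 0) p - inner ℝ (z i) p ≤ i * (s - (2 * M1 + κ ^ 3) / N) := by
      intro i
      induction i with
      | zero => intro _; simp
      | succ i ih =>
        intro hi
        have := ih (by omega)
        have := hcon i (by omega)
        push_cast
        linarith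
    have hsum' : inner ℝ (z 0) p - inner ℝ (z N) p < N * (s - (2 * M1 + κ ^ 3) / N) := by
      obtain ⟨k, hk⟩ : ∃ k, N = k + 1 := ⟨N - 1, by omega⟩
      have e1 := hsum k (by omega)
      have e2 := hcon k (by omega)
      rw [← hk] at e2
      have e3 : (N : ℝ) = k + 1 := by rw [hk]; push_cast; ring
      have e4 : (N : ℝ) * (s - (2 * M1 + κ ^ 3) / N) =
          k * (s - (2 * M1 + κ ^ 3) / N) + (s - (2 * M1 + κ ^ 3) / N) := by
        conv_lhs => rw [show ∀ t : ℝ, (N : ℝ) * t = (k + 1) * t by intro t; rw [e3]]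
        ring
      rw [e4]
      linarith
    have hNr : (0:ℝ) < N := by exact_mod_cast hN0
    have e5 : (N : ℝ) * (s - (2 * M1 + κ ^ 3) / N) = N * s - (2 * M1 + κ ^ 3) := by
      field_simp
    rw [e5] at hsum'
    linarith
  obtain ⟨j, hj, hj'⟩ := hex
  have hNr : (0:ℝ) < N := by exact_mod_cast hN0
  have hμ : (2 * M1 + κ ^ 3) / N ≤ s * (4 * M1 / κ + 2 * κ ^ 2) := by
    rw [div_le_iff₀ hNr]
    have e1 : s * (4 * M1 / κ + 2 * κ ^ 2) * N = (N * s) * (4 * M1 / κ + 2 * κ ^ 2) := by ring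
    rw [e1]
    have e2 : κ / 2 * (4 * M1 / κ + 2 * κ ^ 2) = 2 * M1 + κ ^ 3 := by field_simp; ring
    rw [← e2]
    exact mul_le_mul_of_nonneg_right hN2 (by positivity)
  set μ := 4 * M1 / κ + 2 * κ ^ 2 with hμdef
  obtain ⟨e1, e2, e3⟩ := hz1 j hj.le
  obtain ⟨f1, f2, f3⟩ := hz1 (j + 1) hj
  refine ⟨z j, e1, z (j + 1), f1, ?_, hzy j hj.le, ?_⟩
  · rw [hpz j hj.le, f2, h2, h3]; push_cast; ring
  · have g1 := m.low_chord hr hε e1 f1
    rw [hz2 j hj] at g1
    set d := ‖z j - z (j + 1)‖ with hd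
    have hd0 : 0 ≤ d := norm_nonneg _
    have g2 : d ≤ s * (1 + 6 * (C * ε)) := by
      have : (1 - 3 * (C * ε)) * (1 + 6 * (C * ε)) ≥ 1 := by nlinarith
      nlinarith
    have g3 : ‖z (j + 1) - (z j - s • p)‖ ^ 2 =
        d ^ 2 + 2 * s * (inner ℝ (z (j + 1)) p - inner ℝ (z j) p) + s ^ 2 := by
      have : z (j + 1) - (z j - s • p) = (z (j + 1) - z j) + s • p := by abel
      rw [this, norm_add_sq_real, norm_sub_rev, ← hd, inner_smul_right, inner_sub_left,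
        norm_smul, show ‖p‖ = 1 from hp, Real.norm_eq_abs, mul_one, sq_abs]
      ring
    rw [g3]
    have g4 : d ^ 2 ≤ (s * (1 + 6 * (C * ε))) ^ 2 := pow_le_pow_left₀ hd0 g2 2
    have g5 : s * (1 - μ) ≤ inner ℝ (z j) p - inner ℝ (z (j + 1)) p := by
      have : s * (1 - μ) = s - s * μ := by ring
      linarith
    have g6 : 2 * s * (s * (1 - μ)) ≤ 2 * s * (inner ℝ (z j) p - inner ℝ (z (j + 1)) p) :=
      mul_le_mul_of_nonneg_left g5 (by positivity)
    have g7 : (1 + 6 * (C * ε)) ^ 2 ≤ 1 + 17 * (C * ε) := by nlinarith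
    have g8 : (s * (1 + 6 * (C * ε))) ^ 2 ≤ s ^ 2 * (1 + 17 * (C * ε)) := by
      rw [mul_pow]; exact mul_le_mul_of_nonneg_left g7 (by positivity)
    have g9 : 2 * s * (inner ℝ (z (j + 1)) p - inner ℝ (z j) p) =
        -(2 * s * (inner ℝ (z j) p - inner ℝ (z (j + 1)) p)) := by ring
    have g10 : s ^ 2 * (17 * (C * ε) + 2 * μ) =
        s ^ 2 * (1 + 17 * (C * ε)) - 2 * s * (s * (1 - μ)) + s ^ 2 := by ring
    rw [g9, g10]
    linarith


/-- the first variation, with explicit constants -/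
lemma Met.first_var {h : E → ℝ} {C ε : ℝ} {D : E → E → ℝ} (m : Met h C ε D) (hr : Reg h C)
    (hε : 0 < ε) (hε' : C * ε ≤ 1 / 8) {M α κ : ℝ} (hα : 0 < α) (hκ : 0 < κ)
    (hκ1 : κ ≤ 1 / 64) (hκ2 : 32 * κ ≤ α / 8)
    (hM : (|M| + 20 * C) * ε ≤ κ / 2) (hM2 : 17 * (C * ε) + 8 * ((|M| + 20 * C) * ε) / κ ≤ 1 / 1024)
    (hM3 : 36 * (C * ε) + 12 * ((|M| + 20 * C) * ε) ≤ α / 8)
    {p q y p1 : E} (hp : p ∈ S) (hq : q ∈ S) (hy : y ∈ S) (hp1 : p1 ∈ S)
    (h1 : Real.pi - M * ε ≤ D p q)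
    (h2 : D p y = D p q / 2) (h3 : D y q = D p q / 2) (h0 : 0 < ‖p1 - p‖)
    (hδ : ‖p1 - p‖ ≤ κ / 2) (hδ' : 16 * ‖p1 - p‖ ≤ α / 8)
    (hv : α * ‖p1 - p‖ ≤ inner ℝ (p1 - p) y) : D p1 q < D p q := by
  have hC := hr.one_le
  have hX : 0 < C * ε := by positivity
  set τ := ‖p1 - p‖ with hτ
  set s := inner ℝ (p1 - p) y with hs
  have hs0 : 0 < s := lt_of_lt_of_le (by positivity) hv
  have hsτ : s ≤ τ := (le_abs_self _).trans (abs_inner_le_norm' _ hy)
  have hτ1 : τ ≤ 1 := by linarith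
  obtain ⟨b, hb, b', hb', e1, e2, e3⟩ := exists_step m hr hε hε' hp hq hy h1 h2 h3 hκ
    (by linarith) hs0 (hsτ.trans hδ) hM
  set M1 := (|M| + 20 * C) * ε with hM1
  have hM10 : 0 ≤ M1 := by positivity
  set R := rotI hp hp1 hτ1 with hR
  have hRp : R p = p1 := rotI_self hp hp1 hτ1
  have hRb : R b ∈ S := by
    show ‖R b‖ = 1
    rw [LinearIsometry.norm_map]; exact hb
  -- the second error
  have f1 : ‖b' - (b - s • p)‖ ≤ s / 16 := by
    have : ‖b' - (b - s • p)‖ ^ 2 ≤ (s / 16) ^ 2 := by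
      refine e3.trans ?_
      have g1 : 17 * (C * ε) + 2 * (4 * M1 / κ + 2 * κ ^ 2) ≤ 1 / 256 := by
        have : κ ^ 2 ≤ 1 / 4096 := by nlinarith
        have g2 : 2 * (4 * M1 / κ + 2 * κ ^ 2) = 8 * M1 / κ + 4 * κ ^ 2 := by ring
        rw [g2]
        linarith
      calc s ^ 2 * (17 * (C * ε) + 2 * (4 * M1 / κ + 2 * κ ^ 2)) ≤ s ^ 2 * (1 / 256) :=
            mul_le_mul_of_nonneg_left g1 (by positivity)
        _ = (s / 16) ^ 2 := by ring
    exact (pow_le_pow_iff_left₀ (norm_nonneg _) (by positivity) two_ne_zero).1 this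
  have f2 := rotI_est hp hp1 hτ1 (y := y) hb s hs
  rw [← hR, ← hτ] at f2
  have f3 : |inner ℝ p b| ≤ M1 + 2 * κ := by
    have g1 := (m.near_mid hr hε hε' hp hq hy h1 h2).1
    have g2 : inner ℝ p b = inner ℝ p y + inner ℝ p (b - y) := by
      rw [inner_sub_right]; ring
    rw [g2]
    refine (abs_add_le _ _).trans (add_le_add g1 ?_)
    have g3 := abs_real_inner_le_norm p (b - y)
    rw [show ‖p‖ = 1 from hp, one_mul] at g3
    linarith
  have f4 : ‖R b - b'‖ ≤ τ * (3 * (M1 + 2 * κ) + 4 * τ + 2 * κ) + s / 16 := by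
    have g1 : R b - b' = (R b - (b - s • p)) - (b' - (b - s • p)) := by abel
    rw [g1]
    refine (norm_sub_le _ _).trans (add_le_add (f2.trans ?_) f1)
    exact mul_le_mul_of_nonneg_left (by linarith) h0.le
  have f5 := m.le_norm hr hε hε' hRb hb'
  have f6 : D p1 (R b) ≤ (1 + C * ε * (6 * τ)) * D p b := by
    have := m.rot R (6 * τ) (fun x hx => rotI_le hp hp1 hτ1 hx) p hp b hb
    rwa [hRp] at this
  have f7 : D p b ≤ 6 := by
    have g1 := m.up_ang hr hε hε' hp hb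
    have g2 := ang_le_pi p b
    have g3 := ang_nonneg p b
    have g4 := Real.pi_lt_d2
    nlinarith
  have f8 : 0 ≤ D p b := m.nonneg hp hb
  have f9 := m.tri p1 hp1 (R b) hRb q hq
  have f10 := m.tri (R b) hRb b' hb' q hq
  have f11 : C * ε * (6 * τ) * D p b ≤ 36 * (C * ε) * τ := by
    have : C * ε * (6 * τ) * D p b ≤ C * ε * (6 * τ) * 6 :=
      mul_le_mul_of_nonneg_left f7 (by positivity)
    linarith
  have f12 : 36 * (C * ε) * τ + 4 * (τ * (3 * (M1 + 2 * κ) + 4 * τ + 2 * κ)) ≤ α / 2 * τ := by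
    have : 36 * (C * ε) * τ + 4 * (τ * (3 * (M1 + 2 * κ) + 4 * τ + 2 * κ)) =
      (36 * (C * ε) + 12 * M1 + 32 * κ + 16 * τ) * τ := by ring
    rw [this]
    exact mul_le_mul_of_nonneg_right (by linarith) h0.le
  have f13 : α / 2 * τ ≤ s / 2 := by linarith
  have f14 : (1 + C * ε * (6 * τ)) * D p b = D p b + C * ε * (6 * τ) * D p b := by ring
  linarith

theorem var : VarStmt := by
  intro h C hr M α hα
  have hC := hr.one_le
  have hM0 := abs_nonneg M
  set κ := min (1 / 64) (α / 256) with hκ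
  have hκ0 : 0 < κ := lt_min (by norm_num) (by positivity)
  have hκ1 : κ ≤ 1 / 64 := min_le_left _ _
  have hκ2 : κ ≤ α / 256 := min_le_right _ _
  set A := 17 * C + (|M| + 20 * C) * (8 / κ) + 12 * (|M| + 20 * C) + 36 * C + 1 with hA
  have hA0 : 0 < A := by positivity
  set c0 := min (1 / 1024) (min (κ / 2) (α / 8)) with hc0
  have hc00 : 0 < c0 := lt_min (by norm_num) (lt_min (by positivity) (by positivity))
  have hc01 : c0 ≤ 1 / 1024 := min_le_left _ _
  have hc02 : c0 ≤ κ / 2 := (min_le_right _ _).trans (min_le_left _ _)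
  have hc03 : c0 ≤ α / 8 := (min_le_right _ _).trans (min_le_right _ _)
  refine ⟨c0 / A, by positivity, min (κ / 2) (α / 128), lt_min (by positivity) (by positivity), ?_⟩
  intro ε hε hε' D m p hp q hq y hy p1 hp1 h1 h2 h3 h0 hδ hv
  rw [lt_div_iff₀ hA0] at hε'
  have hδ1 := hδ.trans (min_le_left _ _)
  have hδ2 := hδ.trans (min_le_right _ _)
  have t1 : 0 < (|M| + 20 * C) * (8 / κ) := by positivity
  have t2 : 0 < (|M| + 20 * C) := by positivity
  have hA' : ε * A = 17 * (C * ε) + 8 * ((|M| + 20 * C) * ε) / κ + 12 * ((|M| + 20 * C) * ε) +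
      36 * (C * ε) + ε := by rw [hA]; ring
  have s1 : 0 < C * ε := by positivity
  have s2 : 0 < (|M| + 20 * C) * ε := by positivity
  have s3 : 0 < 8 * ((|M| + 20 * C) * ε) / κ := by positivity
  rw [hA'] at hε'
  exact m.first_var hr hε (by linarith) hα hκ0 hκ1 (by linarith) (by linarith) (by linarith)
    (by linarith) hp hq hy hp1 h1 h2 h3 h0 hδ1 (by linarith) hv

end Pool.Agent.W555.ST
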