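import Pool.Agent.W555.ST.Unif
import Pool.Agent.W555.ST.Var

/-! # The Steinhaus property (`SteinStmt`) -/

set_option autoImplicit false
set_option maxHeartbeats 1000000

open Set Filter Topology

namespace Pool.Agent.W555.ST

/-- Claim A: upper bound for all distances -/
lemma claimA {h : E → ℝ} {C : ℝ} (hr : Reg h C) (hn : NonLin h) : ∃ c : ℝ, 0 < c ∧
    ∃ ε0 : ℝ, 0 < ε0 ∧ ∀ ε : ℝ, 0 < ε → ε < ε0 → ∀ D : E → E → ℝ, Met h C ε D →
      ∀ p ∈ S, ∀ q ∈ S, D p q ≤ Real.pi - c * ε := by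
  have hC := hr.one_le
  obtain ⟨c1, hc1, hun⟩ := unif hr hn
  set M2 := 1 + 20 * C with hM2
  obtain ⟨B, hB, e1, he1, hke⟩ := ke h C hr M2
  set G := 2 * C * M2 + 2 * B with hG
  have hG0 : 0 < G := by positivity
  refine ⟨min 1 (c1 / 2), lt_min (by norm_num) (by positivity),
    min e1 (min (1 / (8 * C)) (min 1 ((c1 / 2 / G) ^ 2))), by positivity, ?_⟩
  intro ε hε hε' D m p hp q hq
  have ε1 : ε < e1 := hε'.trans_le (min_le_left _ _)
  have ε2 : ε < 1 / (8 * C) := hε'.trans_le ((min_le_right _ _).trans (min_le_left _ _))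
  have ε3 : ε < 1 := hε'.trans_le ((min_le_right _ _).trans ((min_le_right _ _).trans
    (min_le_left _ _)))
  have ε4 : ε < (c1 / 2 / G) ^ 2 := hε'.trans_le ((min_le_right _ _).trans
    ((min_le_right _ _).trans (min_le_right _ _)))
  have hX : C * ε ≤ 1 / 8 := by
    rw [lt_div_iff₀ (by positivity)] at ε2; linarith
  have hsq : √ε ≤ c1 / 2 / G := (Real.sqrt_lt' (by positivity)).2 ε4 |>.le
  rcases le_or_gt (D p q) (Real.pi - 1 * ε) with hle | hgt
  · refine hle.trans ?_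
    have : min 1 (c1 / 2) * ε ≤ 1 * ε := mul_le_mul_of_nonneg_right (min_le_left _ _) hε.le
    linarith
  have hpq := m.near_anti hr hε hX hp hq hgt.le
  rw [abs_one, ← hM2] at hpq
  obtain ⟨e, he, hep, hue⟩ := hun p hp (ε⁻¹ • (p + q))
  have hv : inner ℝ (ε⁻¹ • (p + q)) e = ε⁻¹ * inner ℝ e (p + q) := by
    rw [inner_smul_left, real_inner_comm]; simp
  rw [hv] at hue
  have hpe : inner ℝ p e = 0 := by rw [real_inner_comm]; exact hep
  have k1 := hke ε hε ε1 D m p hp e he (by rw [hpe, abs_zero]; positivity)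
  have heq : inner ℝ e q = inner ℝ e (p + q) := by rw [inner_add_right, hep, zero_add]
  have heq' : |inner ℝ e q| ≤ M2 * ε := by
    rw [heq]
    have := abs_real_inner_le_norm e (p + q)
    rw [show ‖e‖ = 1 from he, one_mul] at this
    exact this.trans hpq
  have k2 := hke ε hε ε1 D m e he q hq heq'
  have k3 := KK_lip hr he hq he (neg_mem_S hp)
  rw [sub_self, norm_zero, zero_add, sub_neg_eq_add, add_comm q p] at k3
  have k4 := m.tri p hp e he q hq
  have k1' := (abs_le.1 k1).2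
  have k2' := (abs_le.1 k2).2
  have k3' := (abs_le.1 k3).2
  rw [hpe] at k1'
  rw [heq] at k2'
  have k5 : ε * (KK h e q - KK h e (-p)) ≤ ε * (2 * C * (M2 * ε)) := by
    refine mul_le_mul_of_nonneg_left (k3'.trans ?_) hε.le
    exact mul_le_mul_of_nonneg_left hpq (by positivity)
  have k6 : ε * (uu h p e - ε⁻¹ * inner ℝ e (p + q)) ≤ ε * (-c1) :=
    mul_le_mul_of_nonneg_left hue hε.le
  have k7 : ε * (uu h p e - ε⁻¹ * inner ℝ e (p + q)) = ε * uu h p e - inner ℝ e (p + q) := by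
    field_simp
  have k8 : ε * (2 * C * (M2 * ε)) ≤ 2 * C * M2 * (ε * √ε) := by
    have : ε * ε ≤ ε * √ε := by
      refine mul_le_mul_of_nonneg_left ?_ hε.le
      rw [Real.le_sqrt hε.le hε.le]; nlinarith
    have := mul_le_mul_of_nonneg_left this (show 0 ≤ 2 * C * M2 by positivity)
    linarith
  have k9 : G * (ε * √ε) ≤ c1 / 2 * ε := by
    have : G * √ε ≤ c1 / 2 := by
      have := mul_le_mul_of_nonneg_left hsq hG0.le
      rwa [mul_div_cancel₀ _ hG0.ne'] at this
    have := mul_le_mul_of_nonneg_left this hε.le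
    linarith
  have k10 : G * (ε * √ε) = 2 * C * M2 * (ε * √ε) + 2 * B * (ε * √ε) := by rw [hG]; ring
  have k11 : ε * uu h p e = ε * KK h p e + ε * KK h e (-p) := by unfold uu; ring
  have k12 : min 1 (c1 / 2) * ε ≤ c1 / 2 * ε := mul_le_mul_of_nonneg_right (min_le_right _ _) hε.le
  have k13 : ε * (KK h e q - KK h e (-p)) = ε * KK h e q - ε * KK h e (-p) := by ring
  linarith

/-- Claim D: midpoints are never nearly antipodal -/
lemma claimD {h : E → ℝ} {C : ℝ} (hr : Reg h C) (hn : NonLin h) (M : ℝ) : ∃ δ1 : ℝ, 0 < δ1 ∧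
    ∃ ε0 : ℝ, 0 < ε0 ∧ ∀ ε : ℝ, 0 < ε → ε < ε0 → ∀ D : E → E → ℝ, Met h C ε D →
      ∀ p ∈ S, ∀ q ∈ S, Real.pi - M * ε ≤ D p q → ∀ y ∈ S, ∀ y' ∈ S,
        D p y = D p q / 2 → D y q = D p q / 2 → D p y' = D p q / 2 → D y' q = D p q / 2 →
          δ1 ≤ ‖y + y'‖ := by
  have hC := hr.one_le
  obtain ⟨c, hc, e0, he0, hA⟩ := claimA hr hn
  set M1 := |M| + 20 * C with hM1
  have hM10 : 0 < M1 := by positivity
  obtain ⟨B, hB, e1, he1, hke⟩ := ke h C hr M1
  set G := 4 * C * M1 + 4 * B with hG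
  have hG0 : 0 < G := by positivity
  refine ⟨c / (2 * (M1 + 4 * C)), by positivity,
    min e0 (min e1 (min (1 / (8 * C)) (min 1 ((c / 2 / G) ^ 2)))), by positivity, ?_⟩
  intro ε hε hε' D m p hp q hq h1 y hy y' hy' h2 h3 h4 h5
  have ε0 : ε < e0 := hε'.trans_le (min_le_left _ _)
  have hε'' := hε'.trans_le (min_le_right _ _)
  have ε1 : ε < e1 := hε''.trans_le (min_le_left _ _)
  have ε2 : ε < 1 / (8 * C) := hε''.trans_le ((min_le_right _ _).trans (min_le_left _ _))
  have ε3 : ε < 1 := hε''.trans_le ((min_le_right _ _).trans ((min_le_right _ _).trans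
    (min_le_left _ _)))
  have ε4 : ε < (c / 2 / G) ^ 2 := hε''.trans_le ((min_le_right _ _).trans
    ((min_le_right _ _).trans (min_le_right _ _)))
  have hX : C * ε ≤ 1 / 8 := by
    rw [lt_div_iff₀ (by positivity)] at ε2; linarith
  have hsq : √ε ≤ c / 2 / G := (Real.sqrt_lt' (by positivity)).2 ε4 |>.le
  by_contra hcon
  push Not at hcon
  set d := ‖y + y'‖ with hd
  have hd0 : 0 ≤ d := norm_nonneg _
  have hup := hA ε hε ε0 D m p hp q hq
  have hpq := m.near_anti hr hε hX hp hq h1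
  rw [← hM1] at hpq
  have hqp : D q p = D p q := m.symm q hq p hp
  have n1 := (m.near_mid hr hε hX hp hq hy h1 h2).1
  have n2 := (m.near_mid hr hε hX hp hq hy' h1 h4).1
  have n3 := (m.near_mid hr hε hX hq hp hy (by rwa [hqp])
    (by rw [m.symm q hq y hy, hqp, h3])).1
  have n4 := (m.near_mid hr hε hX hq hp hy' (by rwa [hqp])
    (by rw [m.symm q hq y' hy', hqp, h5])).1
  rw [real_inner_comm] at n3 n4
  have a1 := (abs_le.1 (hke ε hε ε1 D m p hp y hy n1)).1
  have a2 := (abs_le.1 (hke ε hε ε1 D m p hp y' hy' n2)).1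
  have a3 := (abs_le.1 (hke ε hε ε1 D m y hy q hq n3)).1
  have a4 := (abs_le.1 (hke ε hε ε1 D m y' hy' q hq n4)).1
  rw [h2] at a1
  rw [h4] at a2
  rw [h3] at a3
  rw [h5] at a4
  -- the inner products
  have i1 : inner ℝ p y + inner ℝ p y' + inner ℝ y q + inner ℝ y' q ≤ M1 * ε * d := by
    have e1 : inner ℝ p y + inner ℝ p y' + inner ℝ y q + inner ℝ y' q =
        inner ℝ (p + q) (y + y') := by
      rw [inner_add_left, inner_add_right, inner_add_right, real_inner_comm y q,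
        real_inner_comm y' q]
      ring
    rw [e1]
    refine (le_abs_self _).trans ((abs_real_inner_le_norm _ _).trans ?_)
    exact mul_le_mul_of_nonneg_right hpq hd0
  -- the integrals
  have j1 : -(2 * C * (M1 * ε + d)) ≤ KK h p y' + KK h y q := by
    have e1 := KK_lip hr hp hy' (neg_mem_S hq) (neg_mem_S hy)
    rw [KK_neg hr, sub_neg_eq_add, sub_neg_eq_add, sub_neg_eq_add, KK_symm h q y,
      add_comm y' y] at e1
    have e2 := (abs_le.1 e1).1
    have e3 : 2 * C * (‖p + q‖ + d) ≤ 2 * C * (M1 * ε + d) :=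
      mul_le_mul_of_nonneg_left (by linarith) (by positivity)
    rw [← hd] at e2
    linarith
  have j2 : -(2 * C * (M1 * ε + d)) ≤ KK h p y + KK h y' q := by
    have e1 := KK_lip hr hp hy (neg_mem_S hq) (neg_mem_S hy')
    rw [KK_neg hr, sub_neg_eq_add, sub_neg_eq_add, sub_neg_eq_add, KK_symm h q y'] at e1
    have e2 := (abs_le.1 e1).1
    have e3 : 2 * C * (‖p + q‖ + d) ≤ 2 * C * (M1 * ε + d) :=
      mul_le_mul_of_nonneg_left (by linarith) (by positivity)
    rw [← hd] at e2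
    linarith
  have j3 := mul_le_mul_of_nonneg_left j1 hε.le
  have j4 := mul_le_mul_of_nonneg_left j2 hε.le
  -- conclude
  have k1 : ε * √ε ≥ ε * ε := by
    refine mul_le_mul_of_nonneg_left ?_ hε.le
    rw [Real.le_sqrt hε.le hε.le]; nlinarith
  have k2 : 4 * C * M1 * (ε * ε) ≤ 4 * C * M1 * (ε * √ε) :=
    mul_le_mul_of_nonneg_left k1 (by positivity)
  have k9 : G * (ε * √ε) ≤ c / 2 * ε := by
    have : G * √ε ≤ c / 2 := by
      have := mul_le_mul_of_nonneg_left hsq hG0.le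
      rwa [mul_div_cancel₀ _ hG0.ne'] at this
    have := mul_le_mul_of_nonneg_left this hε.le
    linarith
  have k10 : G * (ε * √ε) = 4 * C * M1 * (ε * √ε) + 4 * B * (ε * √ε) := by rw [hG]; ring
  have k11 : (M1 + 4 * C) * d ≤ c / 2 := by
    rw [lt_div_iff₀ (by positivity)] at hcon
    linarith
  have k12 := mul_le_mul_of_nonneg_left k11 hε.le
  have k13 : 0 < c * ε := by positivity
  have k14 : ε * -(2 * C * (M1 * ε + d)) = -(2 * C * M1 * (ε * ε)) - 2 * C * (ε * d) := by ring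
  rw [k14] at j3 j4
  have k15 : ε * ((M1 + 4 * C) * d) = M1 * ε * d + 4 * C * (ε * d) := by ring
  rw [k15] at k12
  have k16 : ε * (KK h p y' + KK h y q) = ε * KK h p y' + ε * KK h y q := by ring
  have k17 : ε * (KK h p y + KK h y' q) = ε * KK h p y + ε * KK h y' q := by ring
  rw [k16] at j3
  rw [k17] at j4
  linarith


/-- Claim C: criticality at a farthest point -/
lemma claimC {h : E → ℝ} {C : ℝ} (hr : Reg h C) (M α : ℝ) (hα : 0 < α) :
    ∃ ε0 : ℝ, 0 < ε0 ∧ ∀ ε : ℝ, 0 < ε → ε < ε0 → ∀ D : E → E → ℝ, Met h C ε D →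
      ∀ p ∈ S, ∀ q ∈ S, Real.pi - M * ε ≤ D p q → (∀ z ∈ S, D p z ≤ D p q) →
        ∀ v ∈ S, inner ℝ q v = 0 →
          ∃ y ∈ S, D p y = D p q / 2 ∧ D y q = D p q / 2 ∧ -α ≤ inner ℝ v y := by
  have hC := hr.one_le
  obtain ⟨e0, he0, δ, hδ, hvar⟩ := var h C hr (M + 1) α hα
  refine ⟨min e0 (1 / (8 * C)), by positivity, ?_⟩
  intro ε hε hε' D m p hp q hq h1 hfar v hv hqv
  have ε0 : ε < e0 := hε'.trans_le (min_le_left _ _)
  have ε2 : ε < 1 / (8 * C) := hε'.trans_le (min_le_right _ _)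
  have hX : C * ε ≤ 1 / 8 := by
    rw [lt_div_iff₀ (by positivity)] at ε2; linarith
  -- the points q_n
  set t : ℕ → ℝ := fun n => 1 / ((n : ℝ) + 1) with ht
  have ht0 : ∀ n, 0 < t n := fun n => by positivity
  have ht1 : ∀ n, t n ≤ 1 := fun n => by
    simp only [ht]
    rw [div_le_one (by positivity)]; linarith [Nat.cast_nonneg (α := ℝ) n]
  have htlim : Tendsto t atTop (𝓝 0) := tendsto_one_div_add_atTop_nhds_zero_nat
  set Q : ℕ → E := fun n => gc q v (t n) with hQ
  have hQS : ∀ n, Q n ∈ S := fun n => gc_mem hq hv hqv _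
  have hQq : ∀ n, ‖Q n - q‖ ≤ t n := fun n => by
    have := gc_sub_le hq hv hqv (t n) 0
    rwa [gc_zero, sub_zero, abs_of_pos (ht0 n)] at this
  have hmid : ∀ n, ∃ y ∈ S, D p y = D p (Q n) / 2 ∧ D y (Q n) = D p (Q n) / 2 := by
    intro n
    have h0 := m.nonneg hp (hQS n)
    obtain ⟨y, hy, e1, e2⟩ := m.mid p hp (Q n) (hQS n) (D p (Q n) / 2) (by linarith) (by linarith)
    exact ⟨y, hy, e1, by rw [e2]; ring⟩
  choose Yn hYS hY1 hY2 using hmid
  -- for large n
  have hclose : ∀ n, |D p (Q n) - D p q| ≤ 4 * t n := by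
    intro n
    have := m.abs_sub_le hr hε hX hp (hQS n) hp hq
    rw [sub_self, norm_zero, zero_add] at this
    have := hQq n
    linarith
  have hev : ∀ᶠ n in atTop, inner ℝ (q - Q n) (Yn n) < α * ‖q - Q n‖ := by
    have hs1 := htlim.eventually (gt_mem_nhds (show (0:ℝ) < ε / 4 by positivity))
    have hs2 := htlim.eventually (gt_mem_nhds hδ)
    filter_upwards [hs1, hs2] with n hn1 hn2
    by_contra hcon
    push Not at hcon
    have hne : 0 < ‖q - Q n‖ := by
      rw [norm_pos_iff, sub_ne_zero]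
      intro he
      have e1 := gc_inner hq hv hqv 0 (t n)
      rw [gc_zero, show gc q v (t n) = q from he.symm, inner_self_S hq] at e1
      have e2 : Real.cos (0 - t n) < 1 := by
        rw [zero_sub, Real.cos_neg]
        have := Real.cos_lt_one_div_sqrt_sq_add_one (x := t n)
        have e3 := Real.cos_lt_cos_of_nonneg_of_le_pi (x := 0) (y := t n) le_rfl
          (by have := Real.pi_gt_three; linarith [ht1 n]) (ht0 n)
        rwa [Real.cos_zero] at e3
      linarith
    have hd : ‖q - Q n‖ ≤ δ := by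
      rw [norm_sub_rev]; exact (hQq n).trans hn2.le
    have hb := (abs_le.1 (hclose n)).1
    have hlow : Real.pi - (M + 1) * ε ≤ D (Q n) p := by
      rw [m.symm (Q n) (hQS n) p hp]; linarith
    have := hvar ε hε ε0 D m (Q n) (hQS n) p hp (Yn n) (hYS n) q hq hlow
      (by rw [m.symm _ (hQS n) _ (hYS n), m.symm _ (hQS n) _ hp, hY2])
      (by rw [m.symm _ (hYS n) _ hp, m.symm _ (hQS n) _ hp, hY1]) hne hd hcon
    rw [m.symm q hq p hp, m.symm (Q n) (hQS n) p hp] at this
    have := hfar (Q n) (hQS n)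
    linarith
  -- compactness
  obtain ⟨y, hy, φ, hφ, hlim⟩ := isCompact_S.tendsto_subseq hYS
  have hφt : Tendsto (fun n => t (φ n)) atTop (𝓝 0) := htlim.comp hφ.tendsto_atTop
  have hQlim : Tendsto (fun n => ‖Q (φ n) - q‖) atTop (𝓝 0) :=
    squeeze_zero (fun n => norm_nonneg _) (fun n => hQq (φ n)) hφt
  have hYlim : Tendsto (fun n => ‖Yn (φ n) - y‖) atTop (𝓝 0) := by
    have := hlim.sub (tendsto_const_nhds (x := y))
    rw [sub_self] at this
    simpa using this.norm
  have hDq : Tendsto (fun n => D p (Q (φ n))) atTop (𝓝 (D p q)) := by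
    rw [tendsto_iff_norm_sub_tendsto_zero]
    refine squeeze_zero (fun n => norm_nonneg _) (fun n => ?_) (g := fun n => 4 * t (φ n)) ?_
    · rw [Real.norm_eq_abs]; exact hclose (φ n)
    · simpa using hφt.const_mul 4
  have hDy : Tendsto (fun n => D p (Yn (φ n))) atTop (𝓝 (D p y)) := by
    rw [tendsto_iff_norm_sub_tendsto_zero]
    refine squeeze_zero (fun n => norm_nonneg _) (fun n => ?_)
      (g := fun n => 4 * ‖Yn (φ n) - y‖) ?_
    · rw [Real.norm_eq_abs]
      have := m.abs_sub_le hr hε hX hp (hYS (φ n)) hp hy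
      rwa [sub_self, norm_zero, zero_add] at this
    · simpa using hYlim.const_mul 4
  have hDyq : Tendsto (fun n => D (Yn (φ n)) (Q (φ n))) atTop (𝓝 (D y q)) := by
    rw [tendsto_iff_norm_sub_tendsto_zero]
    refine squeeze_zero (fun n => norm_nonneg _) (fun n => ?_)
      (g := fun n => 4 * (‖Yn (φ n) - y‖ + ‖Q (φ n) - q‖)) ?_
    · rw [Real.norm_eq_abs]
      exact m.abs_sub_le hr hε hX (hYS (φ n)) (hQS (φ n)) hy hq
    · simpa using (hYlim.add hQlim).const_mul 4
  refine ⟨y, hy, ?_, ?_, ?_⟩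
  · refine tendsto_nhds_unique hDy ?_
    simp only [hY1]
    exact hDq.div_const 2
  · refine tendsto_nhds_unique hDyq ?_
    simp only [hY2]
    exact hDq.div_const 2
  · -- limit of the inner products
    have hev' : ∀ᶠ n in atTop, -(α * (1 + t (φ n)) + t (φ n)) ≤ inner ℝ v (Yn (φ n)) := by
      filter_upwards [hφ.tendsto_atTop.eventually hev] with n hn
      -- q - Q = - (sin t v - (1 - cos t) q)
      have hs : Real.sin (t (φ n)) > 0 :=
        Real.sin_pos_of_pos_of_lt_pi (ht0 _) (by have := Real.pi_gt_three; linarith [ht1 (φ n)])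
      set tt := t (φ n) with htt
      have htt0 : 0 < tt := ht0 _
      have htt1 : tt ≤ 1 := ht1 _
      have e1 : q - Q (φ n) = (1 - Real.cos tt) • q - Real.sin tt • v := by
        simp only [hQ, gc]; module
      rw [e1, inner_sub_left, inner_smul_left, inner_smul_left] at hn
      simp only [RCLike.conj_to_real] at hn
      have e2 : ‖(1 - Real.cos tt) • q - Real.sin tt • v‖ ^ 2 = 2 - 2 * Real.cos tt := by
        rw [norm_sub_sq_real, norm_smul, norm_smul, show ‖q‖ = 1 from hq, show ‖v‖ = 1 from hv,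
          inner_smul_left, inner_smul_right, hqv, Real.norm_eq_abs, Real.norm_eq_abs, mul_one,
          mul_one, sq_abs, sq_abs]
        have := Real.sin_sq_add_cos_sq tt
        simp only [mul_zero, sub_zero]
        nlinarith
      have hc0 : 0 ≤ 1 - Real.cos tt := by have := Real.cos_le_one tt; linarith
      have hc1 : 1 - Real.cos tt ≤ Real.sin tt * tt := by
        -- 1 - cos t ≤ t²/2 ≤ t sin t
        have f1 := Real.one_sub_sq_div_two_le_cos (x := tt)
        have f2 := Real.mul_le_sin htt0.le (by have := Real.pi_gt_three; linarith)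
        have f3 : 1 / 2 * tt ≤ 2 / Real.pi * tt := by
          refine mul_le_mul_of_nonneg_right ?_ htt0.le
          rw [div_le_div_iff₀ (by norm_num) Real.pi_pos]
          linarith [Real.pi_lt_four]
        nlinarith
      have hqy := abs_le.1 (abs_inner_le_one hq (hYS (φ n)))
      -- norm ≤ sin t (1 + t)
      have e3 : ‖(1 - Real.cos tt) • q - Real.sin tt • v‖ ≤ Real.sin tt * (1 + tt) := by
        refine (norm_sub_le _ _).trans ?_
        rw [norm_smul, norm_smul, show ‖q‖ = 1 from hq, show ‖v‖ = 1 from hv, Real.norm_eq_abs,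
          Real.norm_eq_abs, mul_one, mul_one, abs_of_nonneg hc0, abs_of_pos hs]
        linarith
      have e4 := mul_le_mul_of_nonneg_left e3 hα.le
      -- (1 - cos) <q,y> - sin <v,y> < α sin (1 + t)
      have e5 : -(Real.sin tt * tt) ≤ (1 - Real.cos tt) * inner ℝ q (Yn (φ n)) := by
        nlinarith
      have e6 : Real.sin tt * (-(α * (1 + tt) + tt)) ≤ Real.sin tt * inner ℝ v (Yn (φ n)) := by
        nlinarith
      exact le_of_mul_le_mul_left e6 hs
    have hl1 : Tendsto (fun n => -(α * (1 + t (φ n)) + t (φ n))) atTop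
        (𝓝 (-(α * (1 + 0) + 0))) :=
      (((tendsto_const_nhds.add hφt).const_mul α).add hφt).neg
    have hl2 : Tendsto (fun n => inner ℝ v (Yn (φ n))) atTop (𝓝 (inner ℝ v y)) :=
      ((by fun_prop : Continuous fun x : E => inner ℝ v x).tendsto _).comp hlim
    have := le_of_tendsto_of_tendsto hl1 hl2 hev'
    linarith

/-- Parseval for an orthonormal triple -/
lemma parseval {a b c : E} (ha : a ∈ S) (hb : b ∈ S) (hc : c ∈ S) (hab : inner ℝ a b = 0)
    (hac : inner ℝ a c = 0) (hbc : inner ℝ b c = 0) (y : E) :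
    ‖y‖ ^ 2 = inner ℝ a y ^ 2 + inner ℝ b y ^ 2 + inner ℝ c y ^ 2 := by
  have hon : Orthonormal ℝ ![a, b, c] := by
    rw [orthonormal_iff_ite]
    intro i j
    fin_cases i <;> fin_cases j <;>
      simp [hab, hac, hbc, real_inner_comm,
        show ‖a‖ = 1 from ha, show ‖b‖ = 1 from hb, show ‖c‖ = 1 from hc]
  have hcard : Fintype.card (Fin 3) = Module.finrank ℝ E := by simp
  set B := basisOfOrthonormalOfCardEqFinrank hon hcard with hB
  have hBc : ⇑B = ![a, b, c] := coe_basisOfOrthonormalOfCardEqFinrank hon hcard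
  have hon' : Orthonormal ℝ B := by rw [hBc]; exact hon
  have h1 := (B.toOrthonormalBasis hon').sum_sq_norm_inner_right y
  rw [Fin.sum_univ_three] at h1
  simp only [Module.Basis.coe_toOrthonormalBasis, hBc] at h1
  simp only [Matrix.cons_val_zero, Matrix.cons_val_one, Matrix.cons_val, Real.norm_eq_abs,
    sq_abs] at h1
  rw [← h1]

/-- the planar geometry of the set of midpoints -/
lemma geom {q : E} (hq : q ∈ S) {T : Set E} (hT : T ⊆ S) {β δ1 : ℝ} (hβ : 0 < β)
    (hβ1 : β ≤ 1 / 100) (hβ2 : 10 * β < δ1)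
    (h1 : ∀ v ∈ S, inner ℝ q v = 0 → ∃ y ∈ T, -β ≤ inner ℝ v y)
    (h2 : ∀ y ∈ T, ∀ y' ∈ T, δ1 ≤ ‖y + y'‖)
    (h3 : ∀ y ∈ T, |inner ℝ q y| ≤ β) {v : E} (hv : v ∈ S) (hqv : inner ℝ q v = 0) :
    ∃ y ∈ T, β ≤ inner ℝ v y := by
  by_contra hcon
  push Not at hcon
  obtain ⟨y1, hy1, hvy1⟩ := h1 v hv hqv
  have hvy1' := hcon y1 hy1
  have hy1S := hT hy1
  have hqy1 := abs_le.1 (h3 y1 hy1)
  set a := inner ℝ v y1 with ha
  set b := inner ℝ q y1 with hb
  set f := y1 - a • v - b • q with hf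
  have hvq : inner ℝ v q = 0 := by rw [real_inner_comm]; exact hqv
  have hfv : inner ℝ f v = 0 := by
    rw [hf, inner_sub_left, inner_sub_left, inner_smul_left, inner_smul_left, hqv,
      inner_self_S hv, real_inner_comm, ← ha]
    simp
  have hfq : inner ℝ f q = 0 := by
    rw [hf, inner_sub_left, inner_sub_left, inner_smul_left, inner_smul_left, hvq,
      inner_self_S hq, real_inner_comm, ← hb]
    simp
  have hfy : inner ℝ f y1 = 1 - a ^ 2 - b ^ 2 := by
    rw [hf, inner_sub_left, inner_sub_left, inner_smul_left, inner_smul_left,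
      inner_self_S hy1S, ← ha, ← hb]
    simp only [RCLike.conj_to_real]; ring
  have hff : ‖f‖ ^ 2 = 1 - a ^ 2 - b ^ 2 := by
    rw [← real_inner_self_eq_norm_sq]
    conv_lhs => rw [hf]
    rw [inner_sub_left, inner_sub_left, inner_smul_left, inner_smul_left,
      real_inner_comm f v, real_inner_comm f q, hfv, hfq, real_inner_comm, hfy]
    simp
  have ha2 : a ^ 2 ≤ β ^ 2 := by nlinarith
  have hb2 : b ^ 2 ≤ β ^ 2 := by nlinarith
  have hβ3 : β ^ 2 ≤ 1 / 10000 := by nlinarith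
  set r := ‖f‖ with hr
  have hr0 : 0 ≤ r := norm_nonneg _
  have hr1 : 0 < r := by
    rcases hr0.eq_or_lt with h | h
    · rw [← h] at hff; nlinarith
    · exact h
  have hr2 : r ≤ 1 := by nlinarith [sq_nonneg a, sq_nonneg b]
  have hr3 : 1 - 2 * β ^ 2 ≤ r := by nlinarith
  set n := r⁻¹ • f with hn
  have hnS : n ∈ S := by
    show ‖n‖ = 1
    rw [hn, norm_smul, norm_inv, Real.norm_eq_abs, abs_of_pos hr1, ← hr, inv_mul_cancel₀ hr1.ne']
  have hnv : inner ℝ n v = 0 := by rw [hn, inner_smul_left, hfv, mul_zero]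
  have hnq : inner ℝ n q = 0 := by rw [hn, inner_smul_left, hfq, mul_zero]
  have hy1e : y1 = a • v + b • q + r • n := by
    rw [hn, smul_smul, mul_inv_cancel₀ hr1.ne', one_smul, hf]; abel
  -- the second direction
  set k := √(1 + 16 * β ^ 2) with hk
  have hk2 : k ^ 2 = 1 + 16 * β ^ 2 := Real.sq_sqrt (by positivity)
  have hk0 : 0 < k := Real.sqrt_pos.2 (by positivity)
  have hk1 : k ≤ 2 := by nlinarith
  set g := v - (4 * β) • n with hg
  have hgn : ‖g‖ ^ 2 = 1 + 16 * β ^ 2 := by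
    rw [hg, norm_sub_sq_real, inner_smul_right, real_inner_comm, hnv, norm_smul,
      show ‖v‖ = 1 from hv, show ‖n‖ = 1 from hnS, Real.norm_eq_abs, mul_one, sq_abs]
    ring
  have hgk : ‖g‖ = k := by
    have : ‖g‖ ^ 2 = k ^ 2 := by rw [hgn, hk2]
    exact (pow_left_inj₀ (norm_nonneg _) hk0.le two_ne_zero).1 this
  obtain ⟨y2, hy2, hvy2⟩ := h1 (k⁻¹ • g) (by
      show ‖k⁻¹ • g‖ = 1
      rw [norm_smul, norm_inv, Real.norm_eq_abs, abs_of_pos hk0, hgk, inv_mul_cancel₀ hk0.ne'])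
    (by
      rw [inner_smul_right, hg, inner_sub_right, inner_smul_right, hqv, real_inner_comm, hnq]
      simp)
  have hvy2' := hcon y2 hy2
  have hy2S := hT hy2
  have hqy2 := abs_le.1 (h3 y2 hy2)
  rw [inner_smul_left, RCLike.conj_to_real, hg, inner_sub_left, inner_smul_left,
    RCLike.conj_to_real] at hvy2
  set a2 := inner ℝ v y2 with ha2'
  set b2 := inner ℝ q y2 with hb2'
  set c2 := inner ℝ n y2 with hc2'
  have h5 : -(2 * β) ≤ a2 - 4 * β * c2 := by
    have : k * -β ≤ k * (k⁻¹ * (a2 - 4 * β * c2)) := mul_le_mul_of_nonneg_left hvy2 hk0.le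
    rw [← mul_assoc, mul_inv_cancel₀ hk0.ne', one_mul] at this
    nlinarith
  have hc1 := abs_le.1 (abs_inner_le_one hnS hy2S)
  have h6 : c2 < 3 / 4 := by nlinarith
  have h7 : -(6 * β) ≤ a2 := by nlinarith
  have hpar := parseval hq hv hnS hqv (by rw [real_inner_comm]; exact hnq)
    (by rw [real_inner_comm]; exact hnv) y2
  rw [show ‖y2‖ = 1 from hy2S, ← ha2', ← hb2', ← hc2'] at hpar
  have h8 : a2 ^ 2 ≤ 36 * β ^ 2 := by nlinarith
  have h9 : b2 ^ 2 ≤ β ^ 2 := by nlinarith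
  have h10 : 1 - 37 * β ^ 2 ≤ c2 ^ 2 := by nlinarith
  have h11 : c2 ≤ -(1 - 37 * β ^ 2) := by
    have hneg : c2 < 0 := by
      by_contra hc
      push Not at hc
      have : c2 ^ 2 ≤ (3 / 4) ^ 2 := pow_le_pow_left₀ hc h6.le 2
      linarith
    have e1 : -c2 ≤ 1 := by linarith [hc1.1]
    have e2 : (-c2) * (-c2) ≤ (-c2) * 1 := mul_le_mul_of_nonneg_left e1 (by linarith)
    have e3 : c2 ^ 2 = (-c2) * (-c2) := by ring
    linarith
  have h12 : inner ℝ y1 y2 = a * a2 + b * b2 + r * c2 := by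
    have e : inner ℝ (a • v + b • q + r • n) y2 = a * a2 + b * b2 + r * c2 := by
      rw [inner_add_left, inner_add_left, inner_smul_left, inner_smul_left, inner_smul_left]
      simp only [RCLike.conj_to_real, ha2', hb2', hc2']
    rw [← hy1e] at e
    exact e
  have h13 : ‖y1 + y2‖ ^ 2 = 2 + 2 * (a * a2 + b * b2 + r * c2) := by
    rw [norm_add_sq_real, h12, show ‖y1‖ = 1 from hy1S, show ‖y2‖ = 1 from hy2S]; ring
  have h14 : a * a2 ≤ 6 * β ^ 2 := by
    have e1 : |a| ≤ β := abs_le.2 ⟨hvy1, hvy1'.le⟩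
    have e2 : |a2| ≤ 6 * β := abs_le.2 ⟨h7, by linarith⟩
    have := mul_le_mul e1 e2 (abs_nonneg _) hβ.le
    rw [← abs_mul] at this
    have := le_abs_self (a * a2)
    linarith
  have h15 : b * b2 ≤ β ^ 2 := by
    have e1 : |b| ≤ β := h3 y1 hy1
    have e2 : |b2| ≤ β := h3 y2 hy2
    have := mul_le_mul e1 e2 (abs_nonneg _) hβ.le
    rw [← abs_mul] at this
    have := le_abs_self (b * b2)
    linarith
  have h16 : r * c2 ≤ -(1 - 2 * β ^ 2) * (1 - 37 * β ^ 2) := by
    have e1 : r * c2 ≤ r * -(1 - 37 * β ^ 2) := mul_le_mul_of_nonneg_left h11 hr0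
    have e2 : (1 - 2 * β ^ 2) * (1 - 37 * β ^ 2) ≤ r * (1 - 37 * β ^ 2) :=
      mul_le_mul_of_nonneg_right hr3 (by linarith)
    linarith
  have h17 : ‖y1 + y2‖ ^ 2 ≤ (10 * β) ^ 2 := by
    rw [h13]
    have e3 : -(1 - 2 * β ^ 2) * (1 - 37 * β ^ 2) = -1 + 39 * β ^ 2 - 74 * (β ^ 2 * β ^ 2) := by
      ring
    have e4 : 0 ≤ β ^ 2 * β ^ 2 := by positivity
    have e5 : (10 * β) ^ 2 = 100 * β ^ 2 := by ring
    have e6 : 0 ≤ β ^ 2 := by positivity
    rw [e3] at h16
    rw [e5]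
    linarith
  have h18 : ‖y1 + y2‖ ≤ 10 * β :=
    (pow_le_pow_iff_left₀ (norm_nonneg _) (by positivity) two_ne_zero).1 h17
  have := h2 y1 hy1 y2 hy2
  linarith

/-- `p` is the only farthest point of `q` if `q` is a farthest point of `p` -/
lemma uniq {h : E → ℝ} {C : ℝ} (hr : Reg h C) (hn : NonLin h) :
    ∃ ε0 : ℝ, 0 < ε0 ∧ ∀ ε : ℝ, 0 < ε → ε < ε0 → ∀ D : E → E → ℝ, Met h C ε D →
      ∀ p ∈ S, ∀ q ∈ S, (∀ z ∈ S, D p z ≤ D p q) → ∀ p1 ∈ S, p1 ≠ p → D p1 q < D p q := by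
  have hC := hr.one_le
  obtain ⟨δ1, hδ1, e1, he1, hD⟩ := claimD hr hn (4 * C)
  set β := min (1 / 100) (δ1 / 20) with hβ
  have hβ0 : 0 < β := lt_min (by norm_num) (by positivity)
  have hβ1 : β ≤ 1 / 100 := min_le_left _ _
  have hβ2 : 10 * β < δ1 := by
    have : β ≤ δ1 / 20 := min_le_right _ _
    linarith
  obtain ⟨e2, he2, hCC⟩ := claimC hr (4 * C) β hβ0
  obtain ⟨e3, he3, δ, hδ, hvar⟩ := var h C hr (4 * C) (β / 2) (by positivity)
  set δ' := min δ (β / 4) with hδ'
  have hδ'0 : 0 < δ' := lt_min hδ (by positivity)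
  set M1 := |4 * C| + 20 * C with hM1
  have hM1' : M1 = 24 * C := by rw [hM1, abs_of_pos (by positivity)]; ring
  refine ⟨min e1 (min e2 (min e3 (min (1 / (8 * C)) (min (β / (200 * C)) (δ' / (60 * C)))))),
    by positivity, ?_⟩
  intro ε hε hε' D m p hp q hq hfar p1 hp1 hne
  have ε1 : ε < e1 := hε'.trans_le (min_le_left _ _)
  have hε2 := hε'.trans_le (min_le_right _ _)
  have ε2 : ε < e2 := hε2.trans_le (min_le_left _ _)
  have hε3 := hε2.trans_le (min_le_right _ _)
  have ε3 : ε < e3 := hε3.trans_le (min_le_left _ _)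
  have hε4 := hε3.trans_le (min_le_right _ _)
  have ε4 : ε < 1 / (8 * C) := hε4.trans_le (min_le_left _ _)
  have hε5 := hε4.trans_le (min_le_right _ _)
  have ε5 : ε < β / (200 * C) := hε5.trans_le (min_le_left _ _)
  have ε6 : ε < δ' / (60 * C) := hε5.trans_le (min_le_right _ _)
  have hX : C * ε ≤ 1 / 8 := by
    rw [lt_div_iff₀ (by positivity)] at ε4; linarith
  have hX5 : C * ε < β / 200 := by
    rw [lt_div_iff₀ (by positivity)] at ε5; linarith
  have hX6 : C * ε < δ' / 60 := by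
    rw [lt_div_iff₀ (by positivity)] at ε6; linarith
  have hX0 : 0 < C * ε := by positivity
  have c1 := Real.pi_gt_three
  have c2 := Real.pi_lt_d2
  -- lower bound for D p q
  have hlow : Real.pi - 4 * C * ε ≤ D p q := by
    have e := m.low_ang hr hε hX hp (neg_mem_S hp)
    rw [ang_neg_right, ang_self hp, sub_zero] at e
    have := hfar _ (neg_mem_S hp)
    nlinarith
  have hpq := m.near_anti hr hε hX hp hq hlow
  rw [← hM1, hM1'] at hpq
  have hqp : D q p = D p q := m.symm q hq p hp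
  set τ := ‖p1 - p‖ with hτ
  have hτ0 : 0 < τ := norm_pos_iff.2 (sub_ne_zero.2 hne)
  rcases le_or_gt τ δ' with hle | hgt
  · -- near
    set T : Set E := {y | y ∈ S ∧ D p y = D p q / 2 ∧ D y q = D p q / 2} with hTdef
    have hw : (τ⁻¹ • (p1 - p)) ∈ S := by
      show ‖τ⁻¹ • (p1 - p)‖ = 1
      rw [norm_smul, norm_inv, Real.norm_eq_abs, abs_of_pos hτ0, ← hτ, inv_mul_cancel₀ hτ0.ne']
    have hwp : inner ℝ (τ⁻¹ • (p1 - p)) p = -τ / 2 := by
      have e1 := norm_sub_sq_S hp1 hp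
      rw [← hτ] at e1
      rw [inner_smul_left, RCLike.conj_to_real, inner_sub_left, inner_self_S hp]
      have e2 : inner ℝ p1 p - 1 = -(τ ^ 2 / 2) := by linarith
      rw [e2]; field_simp
    have hwq : |inner ℝ (τ⁻¹ • (p1 - p)) q| ≤ τ / 2 + 24 * (C * ε) := by
      have e1 : inner ℝ (τ⁻¹ • (p1 - p)) q = -(inner ℝ (τ⁻¹ • (p1 - p)) p) +
        inner ℝ (τ⁻¹ • (p1 - p)) (p + q) := by rw [inner_add_right]; ring
      rw [e1, hwp]
      refine (abs_add_le _ _).trans (add_le_add ?_ ?_)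
      · rw [neg_div, neg_neg, abs_of_pos (by positivity)]
      · have := abs_real_inner_le_norm (τ⁻¹ • (p1 - p)) (p + q)
        rw [show ‖τ⁻¹ • (p1 - p)‖ = 1 from hw, one_mul] at this
        linarith
    have hτβ : τ ≤ β / 4 := hle.trans (min_le_right _ _)
    obtain ⟨v, hv, hvq, hvw⟩ := orth_approx hw hq (by linarith)
    obtain ⟨y, hy, hvy⟩ := geom hq (T := T) (fun y hy => hy.1) hβ0 hβ1 hβ2
      (fun v hv hqv => by
        obtain ⟨y, hy, h1, h2, h3⟩ := hCC ε hε ε2 D m p hp q hq hlow hfar v hv hqv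
        exact ⟨y, ⟨hy, h1, h2⟩, h3⟩)
      (fun y hy y' hy' => hD ε hε ε1 D m p hp q hq hlow y hy.1 y' hy'.1 hy.2.1 hy.2.2 hy'.2.1
        hy'.2.2)
      (fun y hy => by
        have := (m.near_mid hr hε hX hq hp hy.1 (M := 4 * C) (by rwa [hqp])
          (by rw [m.symm q hq y hy.1, hqp, hy.2.2])).1
        rw [← hM1, hM1'] at this
        linarith) hv (by rw [real_inner_comm]; exact hvq)
    refine hvar ε hε ε3 D m p hp q hq y hy.1 p1 hp1 hlow hy.2.1 hy.2.2 hτ0
      (hle.trans (min_le_left _ _)) ?_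
    have e1 : β / 2 ≤ inner ℝ (τ⁻¹ • (p1 - p)) y := by
      have e2 : inner ℝ (τ⁻¹ • (p1 - p)) y = inner ℝ v y - inner ℝ (v - τ⁻¹ • (p1 - p)) y := by
        rw [inner_sub_left]; ring
      have e3 := abs_inner_le_norm' (v - τ⁻¹ • (p1 - p)) hy.1
      have e4 := (abs_le.1 e3).2
      rw [e2]
      linarith
    rw [inner_smul_left, RCLike.conj_to_real] at e1
    have e5 := mul_le_mul_of_nonneg_left e1 hτ0.le
    rw [← mul_assoc, mul_inv_cancel₀ hτ0.ne', one_mul] at e5
    linarith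
  · -- far
    have e1 := m.up_ang hr hε hX hp1 hq
    have e2 : ang p1 q = Real.pi - ang p1 (-q) := by rw [ang_neg_right]; ring
    have e3 : ‖p1 + q‖ ≤ ang p1 (-q) := by
      have := norm_sub_le_ang hp1 (neg_mem_S hq)
      rwa [sub_neg_eq_add] at this
    have e4 : τ ≤ ‖p1 + q‖ + ‖p + q‖ := by
      have : p1 - p = (p1 + q) - (p + q) := by abel
      rw [hτ, this]; exact norm_sub_le _ _
    have e5 : ang p1 q ≤ Real.pi - δ' + 24 * (C * ε) := by linarith
    have e6 := ang_le_pi p1 q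
    have e7 : 6 * (C * ε) * ang p1 q ≤ 6 * (C * ε) * 4 :=
      mul_le_mul_of_nonneg_left (by linarith) (by positivity)
    have e8 : (1 + 6 * (C * ε)) * ang p1 q = ang p1 q + 6 * (C * ε) * ang p1 q := by ring
    linarith

theorem stein : SteinStmt := by
  intro h C hr hn
  have hC := hr.one_le
  obtain ⟨e0, he0, hu⟩ := uniq hr hn
  refine ⟨min e0 (1 / (8 * C)), by positivity, ?_⟩
  intro ε hε hε' D m p hp
  have ε1 : ε < e0 := hε'.trans_le (min_le_left _ _)
  have ε2 : ε < 1 / (8 * C) := hε'.trans_le (min_le_right _ _)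
  have hX : C * ε ≤ 1 / 8 := by
    rw [lt_div_iff₀ (by positivity)] at ε2; linarith
  obtain ⟨q, hq, hfar⟩ := m.exists_far hr hε hX hp
  have hqfar : ∀ z ∈ S, D q z ≤ D q p := by
    intro z hz
    rcases eq_or_ne z p with h | h
    · rw [h]
    · have := hu ε hε ε1 D m p hp q hq hfar z hz h
      rw [m.symm q hq z hz, m.symm q hq p hp]
      exact this.le
  refine ⟨q, hq, hfar, ?_, hqfar⟩
  intro q' hq' hfar'
  by_contra hne
  have h1 := hu ε hε ε1 D m q hq p hp hqfar q' hq' hne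
  rw [m.symm q' hq' p hp, m.symm q hq p hp] at h1
  have := hfar' q hq
  linarith

end Pool.Agent.W555.ST
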