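import Pool.Agent.W555.ST.KE2

/-! # Properties of `KK`; the uniform non-linearity -/

set_option autoImplicit false
set_option maxHeartbeats 1000000

open Set Filter Topology

namespace Pool.Agent.W555.ST

variable {h : E → ℝ} {C ε : ℝ} {D : E → E → ℝ}

lemma KK_symm (h : E → ℝ) (a b : E) : KK h a b = KK h b a := by
  unfold KK
  have := intervalIntegral.integral_comp_sub_left
    (f := fun t => h (Real.cos t • a + Real.sin t • b)) (a := 0) (b := Real.pi / 2) (Real.pi / 2)
  simp only [sub_zero, sub_self] at this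
  rw [← this]
  congr 1
  ext t
  rw [Real.cos_pi_div_two_sub, Real.sin_pi_div_two_sub, add_comm]

lemma KK_neg (hr : Reg h C) (a b : E) : KK h (-a) (-b) = -KK h a b := by
  unfold KK
  rw [← intervalIntegral.integral_neg]
  congr 1
  ext t
  rw [← hr.odd]
  congr 1
  module

lemma KK_bdd (hr : Reg h C) {a b : E} (ha : a ∈ S) (hb : b ∈ S) : |KK h a b| ≤ 2 * C := by
  have hC := hr.one_le
  rw [KK_eq]
  unfold FF
  have := intervalIntegral.norm_integral_le_of_norm_le_const (a := 0) (b := Real.pi / 2)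
    (C := C) (f := fun t => h (gc a b t)) (fun x _ => by
      rw [Real.norm_eq_abs]
      exact hr.bdd _ (norm_gc_le ha hb x))
  rw [Real.norm_eq_abs, sub_zero, abs_of_pos (show (0:ℝ) < Real.pi / 2 by positivity)] at this
  have c2 := Real.pi_lt_d2
  nlinarith

lemma KK_lip (hr : Reg h C) {a b a' b' : E} (ha : a ∈ S) (hb : b ∈ S) (ha' : a' ∈ S)
    (hb' : b' ∈ S) : |KK h a b - KK h a' b'| ≤ 2 * C * (‖a - a'‖ + ‖b - b'‖) := by
  have hC := hr.one_le
  rw [KK_eq, KK_eq]
  unfold FF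
  rw [← intervalIntegral.integral_sub (gc_integrable hr _ _ _ _) (gc_integrable hr _ _ _ _)]
  have := intervalIntegral.norm_integral_le_of_norm_le_const (a := 0) (b := Real.pi / 2)
    (C := C * (‖a - a'‖ + ‖b - b'‖)) (f := fun t => h (gc a b t) - h (gc a' b' t)) (fun x _ => by
      rw [Real.norm_eq_abs]
      refine (hr.lip _ _ (norm_gc_le ha hb x) (norm_gc_le ha' hb' x)).trans ?_
      refine mul_le_mul_of_nonneg_left ?_ (by linarith)
      have e : gc a b x - gc a' b' x = Real.cos x • (a - a') + Real.sin x • (b - b') := by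
        unfold gc; module
      rw [e]
      refine (norm_add_le _ _).trans ?_
      rw [norm_smul, norm_smul, Real.norm_eq_abs, Real.norm_eq_abs]
      refine add_le_add ?_ ?_
      · exact mul_le_of_le_one_left (norm_nonneg _) (Real.abs_cos_le_one x)
      · exact mul_le_of_le_one_left (norm_nonneg _) (Real.abs_sin_le_one x))
  rw [Real.norm_eq_abs, sub_zero, abs_of_pos (show (0:ℝ) < Real.pi / 2 by positivity)] at this
  have c2 := Real.pi_lt_d2
  refine this.trans ?_
  have : 0 ≤ C * (‖a - a'‖ + ‖b - b'‖) := by positivity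
  nlinarith

/-- the integral over the half circle -/
noncomputable def uu (h : E → ℝ) (p e : E) : ℝ := KK h p e + KK h e (-p)

lemma uu_neg (hr : Reg h C) (p e : E) : uu h p (-e) = -uu h p e := by
  unfold uu
  have e1 : KK h p (-e) = -KK h e (-p) := by
    rw [KK_symm h e (-p), ← KK_neg hr, neg_neg]
  have e2 : KK h (-e) (-p) = -KK h p e := by
    rw [KK_neg hr, KK_symm]
  rw [e1, e2]; ring

lemma uu_bdd (hr : Reg h C) {p e : E} (hp : p ∈ S) (he : e ∈ S) : |uu h p e| ≤ 4 * C := by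
  unfold uu
  refine (abs_add_le _ _).trans ?_
  have h1 := KK_bdd hr hp he
  have h2 := KK_bdd hr he (neg_mem_S hp)
  linarith

lemma uu_lip (hr : Reg h C) {p e p' e' : E} (hp : p ∈ S) (he : e ∈ S) (hp' : p' ∈ S)
    (he' : e' ∈ S) : |uu h p e - uu h p' e'| ≤ 4 * C * (‖p - p'‖ + ‖e - e'‖) := by
  unfold uu
  have h1 := KK_lip hr hp he hp' he'
  have h2 := KK_lip hr he (neg_mem_S hp) he' (neg_mem_S hp')
  have h3 : ‖-p - -p'‖ = ‖p - p'‖ := by rw [← norm_neg]; congr 1; abel
  rw [h3] at h2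
  have h4 : KK h p e + KK h e (-p) - (KK h p' e' + KK h e' (-p')) =
    (KK h p e - KK h p' e') + (KK h e (-p) - KK h e' (-p')) := by ring
  rw [h4]
  refine (abs_add_le _ _).trans ?_
  linarith

/-- make `e` orthogonal to `p` -/
lemma orth_approx {e p : E} (he : e ∈ S) (hp : p ∈ S) (hs : |inner ℝ e p| ≤ 1 / 2) :
    ∃ e' ∈ S, inner ℝ e' p = 0 ∧ ‖e' - e‖ ≤ 2 * |inner ℝ e p| := by
  set a := inner ℝ e p with ha
  set f := e - a • p with hf
  have h1 : inner ℝ f p = 0 := by
    rw [hf, inner_sub_left, inner_smul_left, real_inner_self_eq_norm_sq, show ‖p‖ = 1 from hp]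
    simp [ha]
  have h2 : ‖f‖ ^ 2 = 1 - a ^ 2 := by
    rw [hf, norm_sub_sq_real, inner_smul_right, norm_smul, show ‖p‖ = 1 from hp,
      show ‖e‖ = 1 from he, ← ha, Real.norm_eq_abs, mul_one, sq_abs]
    ring
  have ha0 := abs_nonneg a
  have ha2 : a ^ 2 ≤ 1 / 4 := by rw [← sq_abs]; nlinarith
  have h3 : 0 < ‖f‖ := by
    by_contra hcon
    have : ‖f‖ = 0 := le_antisymm (not_lt.1 hcon) (norm_nonneg _)
    rw [this] at h2; nlinarith
  refine ⟨‖f‖⁻¹ • f, ?_, ?_, ?_⟩
  · show ‖‖f‖⁻¹ • f‖ = 1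
    rw [norm_smul, norm_inv, norm_norm, inv_mul_cancel₀ h3.ne']
  · rw [inner_smul_left, h1, mul_zero]
  · have e1 : ‖f‖⁻¹ • f - e = (‖f‖⁻¹ • f - f) + (f - e) := by abel
    have e2 : ‖f - e‖ = |a| := by
      rw [hf, sub_sub_cancel_left, norm_neg, norm_smul, show ‖p‖ = 1 from hp, Real.norm_eq_abs,
        mul_one]
    have e3 : ‖‖f‖⁻¹ • f - f‖ = 1 - ‖f‖ := by
      have : ‖f‖⁻¹ • f - f = (‖f‖⁻¹ - 1) • f := by module
      rw [this, norm_smul, Real.norm_eq_abs]
      have hf1 : ‖f‖ ≤ 1 := by nlinarith [norm_nonneg f, sq_nonneg a]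
      have : 1 ≤ ‖f‖⁻¹ := (one_le_inv₀ h3).2 hf1
      rw [abs_of_nonneg (by linarith), sub_mul, inv_mul_cancel₀ h3.ne', one_mul]
    rw [e1]
    refine (norm_add_le _ _).trans ?_
    rw [e2, e3]
    have hf1 : ‖f‖ ≤ 1 := by nlinarith [norm_nonneg f, sq_nonneg a]
    have : 1 - ‖f‖ ≤ |a| := by
      have : |a| ^ 2 = a ^ 2 := sq_abs a
      nlinarith
    linarith

/-- uniform non-linearity -/
lemma unif (hr : Reg h C) (hn : NonLin h) : ∃ c : ℝ, 0 < c ∧ ∀ p ∈ S, ∀ v : E,
    ∃ e ∈ S, inner ℝ e p = 0 ∧ uu h p e - inner ℝ v e ≤ -c := by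
  have hC := hr.one_le
  by_contra hcon
  push Not at hcon
  have H : ∀ n : ℕ, ∃ p ∈ S, ∃ v : E, ‖v‖ ≤ 4 * C + 1 ∧ ∀ e ∈ S, inner ℝ e p = 0 →
      |uu h p e - inner ℝ v e| ≤ 1 / ((n : ℝ) + 1) := by
    intro n
    obtain ⟨p, hp, v, hv⟩ := hcon (1 / ((n : ℝ) + 1)) (by positivity)
    have hv' : ∀ e ∈ S, inner ℝ e p = 0 → |uu h p e - inner ℝ v e| ≤ 1 / ((n : ℝ) + 1) := by
      intro e he hep
      have h1 := hv e he hep
      have h2 := hv (-e) (neg_mem_S he) (by rw [inner_neg_left, hep, neg_zero])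
      rw [uu_neg hr, inner_neg_right] at h2
      rw [abs_le]
      constructor <;> linarith
    have hn1 : 1 / ((n : ℝ) + 1) ≤ 1 := by
      rw [div_le_one (by positivity)]; linarith [Nat.cast_nonneg (α := ℝ) n]
    -- project v
    set v' := v - inner ℝ v p • p with hv'def
    have hvp : ∀ e : E, inner ℝ e p = 0 → inner ℝ v' e = inner ℝ v e := by
      intro e hep
      rw [hv'def, inner_sub_left, inner_smul_left, real_inner_comm e p, hep]; simp
    have hv'p : inner ℝ v' p = 0 := by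
      rw [hv'def, inner_sub_left, inner_smul_left, real_inner_self_eq_norm_sq,
        show ‖p‖ = 1 from hp]
      simp
    refine ⟨p, hp, v', ?_, ?_⟩
    · rcases eq_or_ne v' 0 with h0 | h0
      · rw [h0, norm_zero]; linarith
      · have hn0 : 0 < ‖v'‖ := norm_pos_iff.2 h0
        have he : (‖v'‖⁻¹ • v') ∈ S := by
          show ‖‖v'‖⁻¹ • v'‖ = 1
          rw [norm_smul, norm_inv, norm_norm, inv_mul_cancel₀ hn0.ne']
        have hep : inner ℝ (‖v'‖⁻¹ • v') p = 0 := by
          rw [inner_smul_left, hv'p, mul_zero]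
        have h1 := hv' _ he hep
        have h2 := uu_bdd hr hp he
        rw [← hvp _ hep, inner_smul_right, real_inner_self_eq_norm_sq] at h1
        have h3 : ‖v'‖⁻¹ * ‖v'‖ ^ 2 = ‖v'‖ := by field_simp
        rw [h3] at h1
        have h4 := (abs_le.1 h1).1
        have h5 := (abs_le.1 h2).2
        linarith
    · intro e he hep
      rw [hvp e hep]
      exact hv' e he hep
  choose p hp v hv hpv using H
  -- compactness
  have hcomp : IsCompact (S ×ˢ Metric.closedBall (0 : E) (4 * C + 1)) :=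
    isCompact_S.prod (isCompact_closedBall _ _)
  obtain ⟨⟨P, V⟩, hPV, φ, hφ, hlim⟩ := hcomp.tendsto_subseq (x := fun n => (p n, v n))
    (fun n => ⟨hp n, by rw [mem_closedBall_zero_iff]; exact hv n⟩)
  have hP : P ∈ S := hPV.1
  have hlim1 : Tendsto (fun n => p (φ n)) atTop (𝓝 P) := (continuous_fst.tendsto _).comp hlim
  have hlim2 : Tendsto (fun n => v (φ n)) atTop (𝓝 V) := (continuous_snd.tendsto _).comp hlim
  obtain ⟨e, he, heP, hne⟩ := hn P hP V
  apply hne
  change uu h P e = _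
  -- error estimate
  have hin : Tendsto (fun n => |inner ℝ e (p (φ n))|) atTop (𝓝 0) := by
    have : Tendsto (fun n => |inner ℝ e (p (φ n))|) atTop (𝓝 |inner ℝ e P|) :=
      ((continuous_abs.comp (by fun_prop : Continuous fun x : E => inner ℝ e x)).tendsto _).comp
        hlim1
    rwa [heP, abs_zero] at this
  have hbound : ∀ᶠ n in atTop, |uu h P e - inner ℝ V e| ≤
      4 * C * (‖P - p (φ n)‖ + 2 * |inner ℝ e (p (φ n))|) + 1 / ((φ n : ℝ) + 1) +
        (‖v (φ n) - V‖ + (4 * C + 1) * (2 * |inner ℝ e (p (φ n))|)) := by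
    have hs := (hin.eventually (gt_mem_nhds (show (0:ℝ) < 1 / 2 by norm_num)))
    filter_upwards [hs] with n hn
    obtain ⟨e', he', he'p, hee'⟩ := orth_approx he (hp (φ n)) hn.le
    have h1 := hpv (φ n) e' he' he'p
    have h2 := uu_lip hr hP he (hp (φ n)) he'
    rw [norm_sub_rev e e'] at h2
    have h3 : |inner ℝ (v (φ n)) e' - inner ℝ V e| ≤ ‖v (φ n) - V‖ +
        (4 * C + 1) * (2 * |inner ℝ e (p (φ n))|) := by
      have e1 : inner ℝ (v (φ n)) e' - inner ℝ V e =
          inner ℝ (v (φ n) - V) e + inner ℝ (v (φ n)) (e' - e) := by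
        rw [inner_sub_left, inner_sub_right]; ring
      rw [e1]
      refine (abs_add_le _ _).trans (add_le_add ?_ ?_)
      · have := abs_real_inner_le_norm (v (φ n) - V) e
        rwa [show ‖e‖ = 1 from he, mul_one] at this
      · refine (abs_real_inner_le_norm _ _).trans ?_
        exact mul_le_mul (hv _) hee' (norm_nonneg _) (by linarith)
    have e2 : uu h P e - inner ℝ V e = (uu h P e - uu h (p (φ n)) e') +
        (uu h (p (φ n)) e' - inner ℝ (v (φ n)) e') +
        (inner ℝ (v (φ n)) e' - inner ℝ V e) := by ring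
    rw [e2]
    refine (abs_add_le _ _).trans (add_le_add ((abs_add_le _ _).trans (add_le_add ?_ h1)) h3)
    refine h2.trans (mul_le_mul_of_nonneg_left (by linarith) (by linarith))
  have hRHS : Tendsto (fun n => 4 * C * (‖P - p (φ n)‖ + 2 * |inner ℝ e (p (φ n))|) +
      1 / ((φ n : ℝ) + 1) + (‖v (φ n) - V‖ + (4 * C + 1) * (2 * |inner ℝ e (p (φ n))|)))
      atTop (𝓝 (4 * C * (0 + 2 * 0) + 0 + (0 + (4 * C + 1) * (2 * 0)))) := by
    have t1 : Tendsto (fun n => ‖P - p (φ n)‖) atTop (𝓝 0) := by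
      have := (tendsto_const_nhds (x := P)).sub hlim1
      rw [sub_self] at this
      simpa using this.norm
    have t2 : Tendsto (fun n => ‖v (φ n) - V‖) atTop (𝓝 0) := by
      have := hlim2.sub (tendsto_const_nhds (x := V))
      rw [sub_self] at this
      simpa using this.norm
    have t3 : Tendsto (fun n => 1 / ((φ n : ℝ) + 1)) atTop (𝓝 0) :=
      tendsto_one_div_add_atTop_nhds_zero_nat.comp hφ.tendsto_atTop
    exact ((((t1.add (hin.const_mul 2)).const_mul (4 * C)).add t3).add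
      (t2.add ((hin.const_mul 2).const_mul (4 * C + 1))))
  have hle := ge_of_tendsto hRHS hbound
  have h0 : |uu h P e - inner ℝ V e| ≤ 0 := by
    refine hle.trans (le_of_eq (by ring))
  have := abs_nonpos_iff.1 h0
  linarith

end Pool.Agent.W555.ST
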